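import Pool.Agent.H86.KJ.Regu

/-!
# Remez inequality on a leaf with a chart: event form with a random test polynomial

`lrc_ev`: finitely many test polynomials `F i (c v)` with an index `c` which is random given the
point; outside a set of small probability all of them have on the whole chart of the leaf at most
`exp h` times their size at the point.
-/

set_option autoImplicit false

namespace Pool.KJA

open Finset Real
open Pool.Agent.H49.Ent Pool.Agent.H32.Dense Pool.STK Pool.KAF Pool.KAL Pool.KST Pool.KS3 Pool.M3F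

lemma continuous_Psi {d : ℕ} {σ : Type} [Fintype σ] (P : MvPolynomial σ ℝ) (h : ℝ)
    (Φ : σ → MvPolynomial (Fin d) ℝ) : Continuous fun u : Fin d → ℝ => Psi P h (cpt Φ u) := by
  have e : (fun u : Fin d → ℝ => Psi P h (cpt Φ u)) = fun u =>
      ∑ α ∈ expBox σ P.totalDegree, |MvPolynomial.eval (cpt Φ u) (jet P h α)| := by
    funext u
    exact Psi_eq_box P _ le_rfl h _
  rw [e]
  refine continuous_finsetSum _ fun α _ => ?_
  have e2 : (fun u : Fin d → ℝ => MvPolynomial.eval (cpt Φ u) (jet P h α)) =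
      fun u => MvPolynomial.eval u (MvPolynomial.bind₁ Φ (jet P h α)) := by
    funext u
    exact (eval_bind Φ _ u).symm
  have h1 : Continuous fun u : Fin d → ℝ => MvPolynomial.eval (cpt Φ u) (jet P h α) := by
    rw [e2]
    exact MvPolynomial.continuous_eval _
  exact h1.abs

/-- The maximum of the jet size on a chart is attained. -/
lemma exists_max {d : ℕ} {σ : Type} [Fintype σ] (P : MvPolynomial σ ℝ) (h : ℝ)
    (Φ : σ → MvPolynomial (Fin d) ℝ) :
    ∃ u ∈ ucube d, ∀ u' ∈ ucube d, Psi P h (cpt Φ u') ≤ Psi P h (cpt Φ u) := by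
  have hc : IsCompact (ucube d) := by
    have e : ucube d = Set.Icc (fun _ => (0 : ℝ)) (fun _ => (1 : ℝ)) := by
      ext u
      simp only [ucube, Set.mem_setOf_eq, Set.mem_Icc, Pi.le_def]
      exact ⟨fun h => ⟨fun i => (h i).1, fun i => (h i).2⟩, fun h i => ⟨h.1 i, h.2 i⟩⟩
    rw [e]
    exact isCompact_Icc
  obtain ⟨u, hu, hmax⟩ := hc.exists_isMaxOn ⟨fun _ => 0, fun i => by simp⟩
    (continuous_Psi P h Φ).continuousOn
  exact ⟨u, hu, fun u' hu' => hmax hu'⟩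

/-- **Event form, one polynomial.** -/
theorem lrc_ev1 (σ : Type) [Fintype σ] (d D k₀ : ℕ) : ∃ C : ℝ, 1 ≤ C ∧
    ∀ (C₀ : ℝ) (Ω Λ Ξ Z V Γ : Type) [Fintype Ω] [Fintype V] (p : Ω → ℝ) (lam : Ω → Λ)
      (x : Ω → Ξ) (T : Ξ → ℕ) (z : Ξ → σ → ℝ) (A B : Λ → σ → ℝ) (zx : Ξ → Z) (zl : Λ → Z)
      (Yb : Ξ → Fin d → ℕ) (Ng : Z → Fin d → ℕ) (Φ : Z → σ → MvPolynomial (Fin d) ℝ)
      (M N : ℕ) (μ e₁ h : ℝ) (r : V → ℝ) (X : V → Ξ) (c : V → Γ) (P : Γ → MvPolynomial σ ℝ),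
      1 ≤ C₀ → 1 ≤ M → CLeaf k₀ C₀ M p lam x T z A B zx zl Yb Ng Φ →
      MxC N μ p lam x (fun ξ => ∑ i, Real.log (Ng (zx ξ) i)) Yb → 0 ≤ μ →
      Real.log M - CH p (fun ω => T (x ω)) lam ≤ e₁ → 0 ≤ e₁ →
      IsLaw r → (∀ ξ, law r X ξ = law p x ξ) → 0 < h →
      (∀ v, 0 < r v → (P (c v)).totalDegree ≤ D) →
      (∑ v, (open Classical in
        if ∃ u ∈ ucube d, Real.exp h * Psi (P (c v)) (C₀ / M) (z (X v)) <
          Psi (P (c v)) (C₀ / M) (cpt (Φ (zx (X v))) u) then r v else 0)) ≤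
        (2 * D * (CH r c (fun v => zx (X v)) - CH r c X) + C * ((N + 1) * (e₁ + 1) + μ)) / h := by
  classical
  obtain ⟨C, hC, H⟩ := lrc σ d D k₀
  have hl2 : 0 ≤ Real.log 2 := Real.log_nonneg (by norm_num)
  refine ⟨C + D * Real.log 2, by
    have : 0 ≤ (D : ℝ) * Real.log 2 := by positivity
    linarith, ?_⟩
  intro C₀ Ω Λ Ξ Z V Γ _ _ p lam x T z A B zx zl Yb Ng Φ M N μ e₁ h r X c P hC₀ hM hL hmx hμ he₁
    he₁0 hr hX hh hPD
  have hr0 := hr.nonneg
  have hp0 := hL.inc.isLaw.nonneg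
  have hM0 : (0 : ℝ) < M := by exact_mod_cast hM
  set h₀ : ℝ := C₀ / M with hh₀
  have hh₀0 : 0 < h₀ := by positivity
  -- the polynomials, nonzero
  set P' : Γ → MvPolynomial σ ℝ := fun γ => if P γ = 0 then 1 else P γ with hP'
  have hP'0 : ∀ γ, P' γ ≠ 0 := by
    intro γ
    simp only [hP']
    split_ifs with h
    · exact one_ne_zero
    · exact h
  have hP'D : ∀ v, 0 < r v → (P' (c v)).totalDegree ≤ D := by
    intro v hv
    simp only [hP']
    split_ifs with h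
    · rw [MvPolynomial.totalDegree_one]
      exact Nat.zero_le _
    · exact hPD v hv
  choose um hum hmax using fun (γ : Γ) (ζ : Z) => exists_max (P' γ) h₀ (Φ ζ)
  have hsupX : ∀ v, 0 < r v → ∃ ω, 0 < p ω ∧ x ω = X v := fun v hv =>
    supp_of_law (fun ξ => hX ξ) hr0 hv
  have h1 := H C₀ Ω Λ Ξ Z V Γ p lam x T z A B zx zl Yb Ng Φ M N μ e₁ r X c P'
    (fun γ ζ => Real.log (Psi (P' γ) h₀ (cpt (Φ ζ) (um γ ζ)))) hC₀ hM hL hmx hμ he₁ he₁0 hr hX
    (by
      intro v hv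
      refine ⟨hP'0 _, hP'D v hv, um (c v) (zx (X v)), hum _ _, _, fun o => ?_, le_rfl⟩
      rw [sub_self, abs_zero]
      exact hh₀0.le)
  -- the maximum is at least the size at the point
  have h2 : ∀ v, 0 < r v → Real.log (Psi (P' (c v)) h₀ (z (X v))) ≤
      Real.log (Psi (P' (c v)) h₀ (cpt (Φ (zx (X v))) (um (c v) (zx (X v))))) +
        D * Real.log 2 := by
    intro v hv
    obtain ⟨ω, hω, hx⟩ := hsupX v hv
    have h3 := hL.near ω hω
    rw [hx] at h3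
    have h4 := Psi_le_of_near (P' (c v)) h₀ hh₀0.le _ (z (X v)) h3
    have h5 := hmax (c v) (zx (X v)) (gpos (Ng (zx (X v))) (Yb (X v)))
      (gpos_mem (fun i => by
        have := hL.lt ω hω i
        rwa [hx] at this))
    have h6 : (2 : ℝ) ^ (P' (c v)).totalDegree ≤ 2 ^ D := FIL.two_pow_mono (hP'D v hv)
    have h7 : 0 < Psi (P' (c v)) h₀ (z (X v)) := Psi_pos _ (hP'0 _) h₀ hh₀0 _
    have h8 : 0 < Psi (P' (c v)) h₀ (cpt (Φ (zx (X v))) (um (c v) (zx (X v)))) :=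
      Psi_pos _ (hP'0 _) h₀ hh₀0 _
    have h9 : Psi (P' (c v)) h₀ (z (X v)) ≤
        2 ^ D * Psi (P' (c v)) h₀ (cpt (Φ (zx (X v))) (um (c v) (zx (X v)))) :=
      h4.trans (mul_le_mul h6 h5 (Psi_nonneg _ _ _) (by positivity))
    have h10 := Real.log_le_log h7 h9
    rw [Real.log_mul (by positivity) h8.ne', Real.log_pow] at h10
    linarith
  have h3 : (∑ v, if ∃ u ∈ ucube d, Real.exp h * Psi (P (c v)) h₀ (z (X v)) <
      Psi (P (c v)) h₀ (cpt (Φ (zx (X v))) u) then r v else 0) * h ≤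
      Ex r (fun v => Real.log (Psi (P' (c v)) h₀ (cpt (Φ (zx (X v))) (um (c v) (zx (X v))))) +
        D * Real.log 2 - Real.log (Psi (P' (c v)) h₀ (z (X v)))) := by
    rw [Finset.sum_mul]
    unfold Ex
    refine Finset.sum_le_sum fun v _ => ?_
    by_cases hv : 0 < r v
    · split_ifs with hg
      · refine mul_le_mul_of_nonneg_left ?_ hv.le
        obtain ⟨u, hu, hlt⟩ := hg
        have hPn : P (c v) ≠ 0 := by
          intro h0
          rw [h0] at hlt
          have e0 : ∀ y : σ → ℝ, Psi (0 : MvPolynomial σ ℝ) h₀ y = 0 := by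
            intro y
            unfold Psi shf
            rw [map_zero]
            unfold coefSum
            simp
          rw [e0, e0, mul_zero] at hlt
          exact lt_irrefl _ hlt
        have e1 : P' (c v) = P (c v) := by
          simp only [hP']
          rw [if_neg hPn]
        have hg3 : 0 < Psi (P (c v)) h₀ (z (X v)) := Psi_pos _ hPn h₀ hh₀0 _
        have hg5 := hmax (c v) (zx (X v)) u hu
        change h ≤ Real.log (Psi (P' (c v)) h₀ (cpt (Φ (zx (X v))) (um (c v) (zx (X v))))) +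
          D * Real.log 2 - Real.log (Psi (P' (c v)) h₀ (z (X v)))
        rw [e1] at hg5 ⊢
        have hg4 := Real.log_le_log (mul_pos (Real.exp_pos h) hg3) (hlt.le.trans hg5)
        rw [Real.log_mul (Real.exp_pos h).ne' hg3.ne', Real.log_exp] at hg4
        have : 0 ≤ (D : ℝ) * Real.log 2 := by positivity
        linarith
      · rw [zero_mul]
        refine mul_nonneg hv.le ?_
        have := h2 v hv
        linarith
    · have h0 : r v = 0 := le_antisymm (not_lt.mp hv) (hr0 v)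
      rw [h0]
      simp
  rw [Ex_sub, Ex_add, Ex_const hr.sum_one] at h3
  rw [le_div_iff₀ hh]
  refine h3.trans ?_
  have h4 : (1 : ℝ) ≤ (N + 1) * (e₁ + 1) + μ := by
    have hN : (0 : ℝ) ≤ N := Nat.cast_nonneg N
    have : 0 ≤ (N : ℝ) * (e₁ + 1) := by positivity
    linarith
  have h5 : (D : ℝ) * Real.log 2 * 1 ≤ D * Real.log 2 * ((N + 1) * (e₁ + 1) + μ) :=
    mul_le_mul_of_nonneg_left h4 (by positivity)
  have h6 : (C + D * Real.log 2) * ((N + 1) * (e₁ + 1) + μ) =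
      C * ((N + 1) * (e₁ + 1) + μ) + D * Real.log 2 * ((N + 1) * (e₁ + 1) + μ) := by ring
  rw [h6]
  linarith

/-- **Event form, finitely many polynomials** (for instance all the derivatives in the passive
direction of one equation). -/
theorem lrc_ev (σ : Type) [Fintype σ] (d D k₀ : ℕ) : ∃ C : ℝ, 1 ≤ C ∧
    ∀ (C₀ : ℝ) (Ω Λ Ξ Z V Γ ι : Type) [Fintype Ω] [Fintype V] [Fintype ι] (p : Ω → ℝ)
      (lam : Ω → Λ) (x : Ω → Ξ) (T : Ξ → ℕ) (z : Ξ → σ → ℝ) (A B : Λ → σ → ℝ) (zx : Ξ → Z)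
      (zl : Λ → Z) (Yb : Ξ → Fin d → ℕ) (Ng : Z → Fin d → ℕ)
      (Φ : Z → σ → MvPolynomial (Fin d) ℝ) (M N : ℕ) (μ e₁ h : ℝ) (r : V → ℝ) (X : V → Ξ)
      (c : V → Γ) (F : ι → Γ → MvPolynomial σ ℝ),
      1 ≤ C₀ → 1 ≤ M → CLeaf k₀ C₀ M p lam x T z A B zx zl Yb Ng Φ →
      MxC N μ p lam x (fun ξ => ∑ i, Real.log (Ng (zx ξ) i)) Yb → 0 ≤ μ →
      Real.log M - CH p (fun ω => T (x ω)) lam ≤ e₁ → 0 ≤ e₁ →
      IsLaw r → (∀ ξ, law r X ξ = law p x ξ) → 0 < h →
      (∀ i, ∀ v, 0 < r v → (F i (c v)).totalDegree ≤ D) →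
      (∑ v, (open Classical in
        if ∃ i, ∃ u ∈ ucube d, Real.exp h * Psi (F i (c v)) (C₀ / M) (z (X v)) <
          Psi (F i (c v)) (C₀ / M) (cpt (Φ (zx (X v))) u) then r v else 0)) ≤
        Fintype.card ι * ((2 * D * (CH r c (fun v => zx (X v)) - CH r c X) +
          C * ((N + 1) * (e₁ + 1) + μ)) / h) := by
  classical
  obtain ⟨C, hC, H⟩ := lrc_ev1 σ d D k₀
  refine ⟨C, hC, ?_⟩
  intro C₀ Ω Λ Ξ Z V Γ ι _ _ _ p lam x T z A B zx zl Yb Ng Φ M N μ e₁ h r X c F hC₀ hM hL hmx hμ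
    he₁ he₁0 hr hX hh hFD
  have hr0 := hr.nonneg
  have h1 : (∑ v, if ∃ i, ∃ u ∈ ucube d, Real.exp h * Psi (F i (c v)) (C₀ / M) (z (X v)) <
      Psi (F i (c v)) (C₀ / M) (cpt (Φ (zx (X v))) u) then r v else 0) ≤
      ∑ i : ι, ∑ v, if ∃ u ∈ ucube d, Real.exp h * Psi (F i (c v)) (C₀ / M) (z (X v)) <
      Psi (F i (c v)) (C₀ / M) (cpt (Φ (zx (X v))) u) then r v else 0 := by
    rw [Finset.sum_comm]
    refine Finset.sum_le_sum fun v _ => ?_
    have hnn : ∀ i : ι, 0 ≤ if ∃ u ∈ ucube d, Real.exp h * Psi (F i (c v)) (C₀ / M) (z (X v)) <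
      Psi (F i (c v)) (C₀ / M) (cpt (Φ (zx (X v))) u) then r v else 0 := by
      intro i
      split_ifs
      · exact hr0 v
      · exact le_rfl
    by_cases hb : ∃ i, ∃ u ∈ ucube d, Real.exp h * Psi (F i (c v)) (C₀ / M) (z (X v)) <
      Psi (F i (c v)) (C₀ / M) (cpt (Φ (zx (X v))) u)
    · rw [if_pos hb]
      obtain ⟨i, hi⟩ := hb
      have h2 := Finset.single_le_sum (f := fun i : ι => if ∃ u ∈ ucube d,
        Real.exp h * Psi (F i (c v)) (C₀ / M) (z (X v)) <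
        Psi (F i (c v)) (C₀ / M) (cpt (Φ (zx (X v))) u) then r v else 0)
        (fun i _ => hnn i) (Finset.mem_univ i)
      rw [if_pos hi] at h2
      exact h2
    · rw [if_neg hb]
      exact Finset.sum_nonneg fun i _ => hnn i
  refine h1.trans ?_
  calc _ ≤ ∑ _i : ι, ((2 * D * (CH r c (fun v => zx (X v)) - CH r c X) +
          C * ((N + 1) * (e₁ + 1) + μ)) / h) := Finset.sum_le_sum fun i _ =>
        H C₀ Ω Λ Ξ Z V Γ p lam x T z A B zx zl Yb Ng Φ M N μ e₁ h r X c (F i) hC₀ hM hL hmx hμ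
          he₁ he₁0 hr hX hh (hFD i)
    _ = _ := by rw [Finset.sum_const, Finset.card_univ, nsmul_eq_mul]

end Pool.KJA
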