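import Pool.Agent.H86.KJ.Lrc
import Pool.Agent.H78.KST.JetA

/-!
# Remez inequality on a leaf in curved natural coordinates: natural cubes and thickness
-/

set_option autoImplicit false

namespace Pool.KJA

open Finset Real
open Pool.Agent.H49.Ent Pool.Agent.H32.Dense Pool.STK Pool.KAF Pool.KAL Pool.KST Pool.KS3 Pool.M3F

/-- The natural cube of the point: the leaf is divided into `K ^ d` cubes. -/
def ncb {Ξ Z : Type} {d : ℕ} (K : ℕ) (zx : Ξ → Z) (Yb : Ξ → Fin d → ℕ) (Ng : Z → Fin d → ℕ)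
    (ξ : Ξ) : Fin d → ℕ := fun i => Yb ξ i * K / Ng (zx ξ) i

section

variable {σ Ω Λ Ξ Z : Type} [Fintype Ω] {d k₀ : ℕ} {C₀ : ℝ} {M : ℕ} {p : Ω → ℝ}
    {lam : Ω → Λ} {x : Ω → Ξ} {T : Ξ → ℕ} {z : Ξ → σ → ℝ} {A B : Λ → σ → ℝ} {zx : Ξ → Z}
    {zl : Λ → Z} {Yb : Ξ → Fin d → ℕ} {Ng : Z → Fin d → ℕ} {Φ : Z → σ → MvPolynomial (Fin d) ℝ}

lemma CLeaf.ncb_lt (h : CLeaf k₀ C₀ M p lam x T z A B zx zl Yb Ng Φ) {K : ℕ} (hK : 1 ≤ K)
    {ω : Ω} (hω : 0 < p ω) (i : Fin d) : ncb K zx Yb Ng (x ω) i < K := by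
  have h1 := h.lt ω hω i
  unfold ncb
  rw [Nat.div_lt_iff_lt_mul (lt_of_le_of_lt (Nat.zero_le _) h1), mul_comm K]
  exact Nat.mul_lt_mul_of_pos_right h1 hK

/-- The point is in its natural cube. -/
lemma CLeaf.ncb_mem (h : CLeaf k₀ C₀ M p lam x T z A B zx zl Yb Ng Φ) {K : ℕ} (hK : 1 ≤ K)
    {ω : Ω} (hω : 0 < p ω) (i : Fin d) :
    (ncb K zx Yb Ng (x ω) i : ℝ) / K ≤ gpos (Ng (zx (x ω))) (Yb (x ω)) i ∧
      gpos (Ng (zx (x ω))) (Yb (x ω)) i ≤ ((ncb K zx Yb Ng (x ω) i : ℝ) + 1) / K := by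
  have hK0 : (0 : ℝ) < K := by exact_mod_cast hK
  have h1 := h.lt ω hω i
  have h2 : 0 < Ng (zx (x ω)) i := lt_of_le_of_lt (Nat.zero_le _) h1
  have h3 : (0 : ℝ) < Ng (zx (x ω)) i := by exact_mod_cast h2
  have h4 : ncb K zx Yb Ng (x ω) i * Ng (zx (x ω)) i ≤ Yb (x ω) i * K := Nat.div_mul_le_self _ _
  have h5 : Yb (x ω) i * K < (ncb K zx Yb Ng (x ω) i + 1) * Ng (zx (x ω)) i := by
    unfold ncb
    have h6 := Nat.div_add_mod (Yb (x ω) i * K) (Ng (zx (x ω)) i)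
    have h7 := Nat.mod_lt (Yb (x ω) i * K) h2
    have h8 : (Yb (x ω) i * K / Ng (zx (x ω)) i + 1) * Ng (zx (x ω)) i =
        Ng (zx (x ω)) i * (Yb (x ω) i * K / Ng (zx (x ω)) i) + Ng (zx (x ω)) i := by ring
    rw [h8]
    omega
  unfold gpos
  have h4' : (ncb K zx Yb Ng (x ω) i : ℝ) * Ng (zx (x ω)) i ≤ Yb (x ω) i * K := by
    exact_mod_cast h4
  have h5' : (Yb (x ω) i : ℝ) * K ≤ (ncb K zx Yb Ng (x ω) i + 1) * Ng (zx (x ω)) i := by
    exact_mod_cast h5.le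
  constructor
  · rw [div_le_div_iff₀ hK0 h3]
    exact h4'
  · rw [div_le_div_iff₀ h3 hK0]
    exact h5'

/-- The number of natural cubes. -/
lemma CLeaf.CH_ncb_le (h : CLeaf k₀ C₀ M p lam x T z A B zx zl Yb Ng Φ) {K : ℕ} (hK : 1 ≤ K) :
    CH p (fun ω => ncb K zx Yb Ng (x ω)) (fun ω => zx (x ω)) ≤ d * Real.log K := by
  classical
  have hp := h.inc.isLaw
  have h1 := CH_le_card hp.nonneg hp.sum_one (fun ω => ncb K zx Yb Ng (x ω))
    (fun ω => zx (x ω)) (fun _ => Fintype.piFinset (fun _ : Fin d => Finset.range K)) (by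
      intro ω hω
      rw [Fintype.mem_piFinset]
      intro i
      rw [Finset.mem_range]
      exact h.ncb_lt hK hω i)
  refine h1.trans (le_of_eq ?_)
  have h2 : ((Fintype.piFinset (fun _ : Fin d => Finset.range K)).card : ℝ) = (K : ℝ) ^ d := by
    rw [Fintype.card_piFinset]
    simp
  simp only [h2]
  rw [Ex_const hp.sum_one, Real.log_pow]

end

/-- **From the natural cube to the whole leaf, all the polynomials at once.** Outside a set of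
small probability: every polynomial of degree at most `D` in the absolute coordinates is on the
whole chart of the leaf at most `exp h` times larger than on the support in the natural cube (of
side `1 / K`) of the point. -/
theorem lru_cube_c (σ : Type) [Fintype σ] (d D k₀ : ℕ) : ∃ C : ℝ, 1 ≤ C ∧
    ∀ (C₀ : ℝ) (Ω Λ Ξ Z : Type) [Fintype Ω] (p : Ω → ℝ) (lam : Ω → Λ)
      (x : Ω → Ξ) (T : Ξ → ℕ) (z : Ξ → σ → ℝ) (A B : Λ → σ → ℝ) (zx : Ξ → Z) (zl : Λ → Z)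
      (Yb : Ξ → Fin d → ℕ) (Ng : Z → Fin d → ℕ) (Φ : Z → σ → MvPolynomial (Fin d) ℝ)
      (M N K : ℕ) (μ e₁ h : ℝ),
      1 ≤ C₀ → 1 ≤ M → 1 ≤ K → CLeaf k₀ C₀ M p lam x T z A B zx zl Yb Ng Φ →
      MxC N μ p lam x (fun ξ => ∑ i, Real.log (Ng (zx ξ) i)) Yb → 0 ≤ μ →
      Real.log M - CH p (fun ω => T (x ω)) lam ≤ e₁ → 0 ≤ e₁ → 0 < h →
      (∑ ω, (open Classical in
        if ∃ (F : MvPolynomial σ ℝ) (u : Fin d → ℝ), F ≠ 0 ∧ F.totalDegree ≤ D ∧ u ∈ ucube d ∧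
          ∀ ω', 0 < p ω' → zx (x ω') = zx (x ω) →
            ncb K zx Yb Ng (x ω') = ncb K zx Yb Ng (x ω) →
            Real.exp h * Psi F (C₀ / M) (z (x ω')) < Psi F (C₀ / M) (cpt (Φ (zx (x ω))) u)
        then p ω else 0)) ≤
        (2 * D * (d * Real.log K) + C * ((N + 1) * (e₁ + 1) + μ)) / h := by
  classical
  obtain ⟨C, hC, H⟩ := lru_c σ d D k₀
  refine ⟨C, hC, ?_⟩
  intro C₀ Ω Λ Ξ Z _ p lam x T z A B zx zl Yb Ng Φ M N K μ e₁ h hC₀ hM hK hL hmx hμ he₁ he₁0 hh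
  refine (H C₀ Ω Λ Ξ Z (Fin d → ℕ) p lam x T z A B zx zl Yb Ng Φ M N μ e₁ h
    (ncb K zx Yb Ng) hC₀ hM hL hmx hμ he₁ he₁0 hh).trans ?_
  refine div_le_div_of_nonneg_right ?_ hh.le
  have h1 := mul_le_mul_of_nonneg_left (hL.CH_ncb_le hK) (by positivity : (0 : ℝ) ≤ 2 * D)
  linarith

/-- The same as an event: on a set of large probability, for every polynomial and every point of
the chart there is a point in the natural cube of the chart where the polynomial has at least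
about the same size. -/
theorem lru_cube_ev (σ : Type) [Fintype σ] (d D k₀ : ℕ) : ∃ C : ℝ, 1 ≤ C ∧
    ∀ (C₀ : ℝ) (Ω Λ Ξ Z : Type) [Fintype Ω] (p : Ω → ℝ) (lam : Ω → Λ)
      (x : Ω → Ξ) (T : Ξ → ℕ) (z : Ξ → σ → ℝ) (A B : Λ → σ → ℝ) (zx : Ξ → Z) (zl : Λ → Z)
      (Yb : Ξ → Fin d → ℕ) (Ng : Z → Fin d → ℕ) (Φ : Z → σ → MvPolynomial (Fin d) ℝ)
      (M N K : ℕ) (μ e₁ h : ℝ),
      1 ≤ C₀ → 1 ≤ M → 1 ≤ K → CLeaf k₀ C₀ M p lam x T z A B zx zl Yb Ng Φ →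
      MxC N μ p lam x (fun ξ => ∑ i, Real.log (Ng (zx ξ) i)) Yb → 0 ≤ μ →
      Real.log M - CH p (fun ω => T (x ω)) lam ≤ e₁ → 0 ≤ e₁ → 0 < h →
      (∑ ω, (open Classical in
        if ∃ (F : MvPolynomial σ ℝ) (u : Fin d → ℝ), F ≠ 0 ∧ F.totalDegree ≤ D ∧ u ∈ ucube d ∧
          ∀ u' : Fin d → ℝ, u' ∈ ucube d →
            (∀ i, (ncb K zx Yb Ng (x ω) i : ℝ) / K ≤ u' i ∧
              u' i ≤ ((ncb K zx Yb Ng (x ω) i : ℝ) + 1) / K) →
            2 ^ D * Real.exp h * Psi F (C₀ / M) (cpt (Φ (zx (x ω))) u') <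
              Psi F (C₀ / M) (cpt (Φ (zx (x ω))) u)
        then p ω else 0)) ≤
        (2 * D * (d * Real.log K) + C * ((N + 1) * (e₁ + 1) + μ)) / h := by
  classical
  obtain ⟨C, hC, H⟩ := lru_cube_c σ d D k₀
  refine ⟨C, hC, ?_⟩
  intro C₀ Ω Λ Ξ Z _ p lam x T z A B zx zl Yb Ng Φ M N K μ e₁ h hC₀ hM hK hL hmx hμ he₁ he₁0 hh
  refine le_trans ?_ (H C₀ Ω Λ Ξ Z p lam x T z A B zx zl Yb Ng Φ M N K μ e₁ h hC₀ hM hK hL hmx hμ
    he₁ he₁0 hh)
  have hp0 := hL.inc.isLaw.nonneg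
  have hh₀ : 0 ≤ C₀ / M := by positivity
  refine Finset.sum_le_sum fun ω _ => ?_
  by_cases hb : ∃ (F : MvPolynomial σ ℝ) (u : Fin d → ℝ), F ≠ 0 ∧ F.totalDegree ≤ D ∧
      u ∈ ucube d ∧ ∀ u' : Fin d → ℝ, u' ∈ ucube d →
            (∀ i, (ncb K zx Yb Ng (x ω) i : ℝ) / K ≤ u' i ∧
              u' i ≤ ((ncb K zx Yb Ng (x ω) i : ℝ) + 1) / K) →
            2 ^ D * Real.exp h * Psi F (C₀ / M) (cpt (Φ (zx (x ω))) u') <
              Psi F (C₀ / M) (cpt (Φ (zx (x ω))) u)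
  · rw [if_pos hb]
    obtain ⟨F, u, h1, h2, h3, h4⟩ := hb
    rw [if_pos]
    refine ⟨F, u, h1, h2, h3, ?_⟩
    intro ω' hω' hz hc
    have hg := h4 (gpos (Ng (zx (x ω'))) (Yb (x ω'))) (gpos_mem (hL.lt ω' hω')) (by
      intro i
      rw [← hc]
      exact hL.ncb_mem hK hω' i)
    refine lt_of_le_of_lt ?_ hg
    have h5 : Psi F (C₀ / M) (z (x ω')) ≤
        2 ^ D * Psi F (C₀ / M) (cpt (Φ (zx (x ω))) (gpos (Ng (zx (x ω'))) (Yb (x ω')))) := by
      have h6 := Psi_le_of_near F (C₀ / M) hh₀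
        (cpt (Φ (zx (x ω))) (gpos (Ng (zx (x ω'))) (Yb (x ω')))) (z (x ω')) (by
          intro o
          have := hL.near ω' hω' o
          rw [← hz]
          exact this)
      exact h6.trans (mul_le_mul_of_nonneg_right (FIL.two_pow_mono h2) (Psi_nonneg _ _ _))
    calc Real.exp h * Psi F (C₀ / M) (z (x ω')) ≤ Real.exp h *
          (2 ^ D * Psi F (C₀ / M) (cpt (Φ (zx (x ω))) (gpos (Ng (zx (x ω'))) (Yb (x ω'))))) :=
          mul_le_mul_of_nonneg_left h5 (Real.exp_pos h).le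
      _ = _ := by ring
  · rw [if_neg hb]
    split_ifs
    · exact hp0 ω
    · exact le_rfl

/-- Thickness: the jet size with the thickness `h / s i` in the direction `i` is the jet size of
the polynomial in the coordinates `s i * z i`. -/
lemma Psi_scale {σ : Type} [Fintype σ] (P : MvPolynomial σ ℝ) {s : σ → ℝ} (hs : ∀ i, s i ≠ 0)
    (h : ℝ) (z : σ → ℝ) :
    Psi (MvPolynomial.aeval (fun i => MvPolynomial.C (1 / s i) * MvPolynomial.X i) P :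
      MvPolynomial σ ℝ) h (fun i => s i * z i) = PsiA P (fun i => h / s i) z := by
  unfold Psi PsiA shf shA
  congr 1
  have key : (MvPolynomial.aeval (fun i => MvPolynomial.C ((fun i => s i * z i) i) +
      MvPolynomial.C h * MvPolynomial.X i) : MvPolynomial σ ℝ →ₐ[ℝ] MvPolynomial σ ℝ).comp
      (MvPolynomial.aeval (fun i => MvPolynomial.C (1 / s i) * MvPolynomial.X i)) =
      MvPolynomial.aeval (fun i => MvPolynomial.C (z i) +
        MvPolynomial.C ((fun i => h / s i) i) * MvPolynomial.X i) := by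
    refine MvPolynomial.algHom_ext fun i => ?_
    have e1 : (1 / s i * (s i * z i) : ℝ) = z i := by
      have := hs i
      field_simp
    have e2 : (1 / s i * h : ℝ) = h / s i := by ring
    simp only [AlgHom.comp_apply, MvPolynomial.aeval_X, map_mul, MvPolynomial.aeval_C,
      MvPolynomial.algebraMap_eq]
    rw [mul_add, ← MvPolynomial.C_mul, ← MvPolynomial.C_mul, e1, ← mul_assoc,
      ← MvPolynomial.C_mul, e2]
  exact congrArg (fun f : MvPolynomial σ ℝ →ₐ[ℝ] MvPolynomial σ ℝ => f P) key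

end Pool.KJA
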