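import Pool.Agent.H82.KSP.LRP

/-!
# LEMMA J without fans: the abstract mixing field

`Mx`: one walk of `N` steps in the leaf window whose last point has full base coordinates given
the first point. This is the only way in which the fans enter the tree of LEMMA J. `ful_of_mx`:
the base coordinates are full given every label of the leaf. `lrp_mx`: the Remez inequality on the
leaf of the other time.
-/

set_option autoImplicit false

namespace Pool.KJA

open Finset Real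
open Pool.Agent.H49.Ent Pool.Agent.H32.Dense Pool.STK Pool.KAF Pool.KAL Pool.KS3

/-- **Mixing.** One walk of `N` steps: the base coordinates of the last point are full given the
first point. -/
def Mx {n : ℕ} {Ω Λ Ξ : Type} [Fintype Ω] (L N : ℕ) (μ : ℝ) (p : Ω → ℝ) (lam : Ω → Λ)
    (x : Ω → Ξ) (pos : Ξ → Option (Fin n) → ℕ) : Prop :=
  ∃ (W : Type) (_ : Fintype W) (q : W → ℝ) (o o' : ℕ → W → Ω) (l : ℕ → W → Λ) (y : ℕ → W → Ξ),
    IsChain p lam x N q o o' l y ∧
      n * (L * Real.log 2) - CH q (fun w => bas pos (y N w)) (y 0) ≤ μ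

section

variable {n : ℕ} {Ω Λ Ξ Z : Type} [Fintype Ω] {L N : ℕ} {μ : ℝ} {p : Ω → ℝ} {lam : Ω → Λ}
  {x : Ω → Ξ} {pos : Ξ → Option (Fin n) → ℕ}

/-- A label which is constant along the lines is constant along the walk. -/
theorem chain_lab {W : Type} [Fintype W] {q : W → ℝ} {o o' : ℕ → W → Ω} {l : ℕ → W → Λ}
    {y : ℕ → W → Ξ} (hch : IsChain p lam x N q o o' l y) {zx : Ξ → Z} {zl : Λ → Z}
    (hz : ∀ ω, 0 < p ω → zx (x ω) = zl (lam ω)) :
    ∀ i ≤ N, ∀ w, 0 < q w → zx (y i w) = zx (y 0 w) := by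
  have hq0 := hch.isLaw.nonneg
  have hlab1 : ∀ i < N, ∀ w, 0 < q w → zx (y i w) = zl (l i w) := by
    intro i hi w hw
    have h1 := (hch.marg i hi).pos hq0 hw
    rw [← hch.start w hw i hi, ← hch.line w hw i hi]
    exact hz _ h1
  have hlab2 : ∀ i < N, ∀ w, 0 < q w → zx (y (i + 1) w) = zl (l i w) := by
    intro i hi w hw
    have h1 := (hch.marg' i hi).pos hq0 hw
    rw [← hch.stop w hw i hi, ← hch.line' w hw i hi]
    exact hz _ h1
  intro i
  induction i with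
  | zero => intro _ _ _; rfl
  | succ i ih =>
    intro hi w hw
    rw [hlab2 i (by omega) w hw, ← hlab1 i (by omega) w hw]
    exact ih (by omega) w hw

/-- **Fullness from mixing.** -/
theorem ful_of_mx (h : Mx L N μ p lam x pos) {zx : Ξ → Z} {zl : Λ → Z}
    (hz : ∀ ω, 0 < p ω → zx (x ω) = zl (lam ω)) :
    n * (L * Real.log 2) - CH p (fun ω => bas pos (x ω)) (fun ω => zx (x ω)) ≤ μ := by
  obtain ⟨W, iW, q, o, o', l, y, hch, hm⟩ := h
  have hq0 := hch.isLaw.nonneg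
  have h1 : CH q (fun w => bas pos (y N w)) (y 0) ≤
      CH q (fun w => bas pos (y N w)) (fun w => zx (y N w)) := by
    refine CH_mono_cond hq0 ?_
    intro w w' a b hh
    have h2 : y 0 w = y 0 w' := hh
    change zx (y N w) = zx (y N w')
    rw [chain_lab hch hz N le_rfl w a, chain_lab hch hz N le_rfl w' b, h2]
  have h2 : CH q (fun w => bas pos (y N w)) (fun w => zx (y N w)) =
      CH p (fun ω => bas pos (x ω)) (fun ω => zx (x ω)) := by
    have hlawN := hch.cell N le_rfl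
    unfold CH
    rw [H_eq_of_lawS3 (fun b => law_comp_eq hlawN (fun ξ => (bas pos ξ, zx ξ)) b),
      H_eq_of_lawS3 (fun b => law_comp_eq hlawN (fun ξ => zx ξ) b)]
  linarith

end

/-- **LRP without fans.** -/
theorem lrp_mx (n D k₀ : ℕ) (C₀ : ℝ) (hC₀ : 1 ≤ C₀) : ∃ C : ℝ, 0 ≤ C ∧
    ∀ (Ω Λ Ξ Z V Γ : Type) [Fintype Ω] [Fintype V] (p : Ω → ℝ) (lam : Ω → Λ) (x : Ω → Ξ)
      (T : Ξ → ℕ) (pos : Ξ → Option (Fin n) → ℕ) (A B : Λ → Option (Fin n) → ℝ) (zx : Ξ → Z)
      (zl : Λ → Z) (G : Z → MvPolynomial (Fin n) ℝ) (L N : ℕ) (μ e₁ : ℝ)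
      (r : V → ℝ) (X : V → Ξ) (c : V → Γ) (P : Γ → Z → MvPolynomial (Option (Fin n)) ℝ)
      (S : Γ → Z → ℝ),
      Leaf n (2 ^ L) C₀ p lam x T pos A B → (∀ ω, 0 < p ω → zx (x ω) = zl (lam ω)) →
      (∀ ω, 0 < p ω → RegG (G (zx (x ω))) (fun _ => 0) 1 k₀ C₀) →
      (∀ ω, 0 < p ω → |rp (2 ^ L) pos (x ω) none - MvPolynomial.eval
        (fun i => rp (2 ^ L) pos (x ω) (some i)) (G (zx (x ω)))| ≤ C₀ / 2 ^ L) →
      Mx L N μ p lam x pos → 0 ≤ μ →
      L * Real.log 2 - CH p (fun ω => T (x ω)) lam ≤ e₁ → 0 ≤ e₁ →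
      IsLaw r → (∀ ξ, law r X ξ = law p x ξ) →
      (∀ v, 0 < r v → P (c v) (zx (X v)) ≠ 0 ∧ (P (c v) (zx (X v))).totalDegree ≤ D) →
      (∀ v, 0 < r v → 0 < S (c v) (zx (X v)) ∧ ∃ ω, 0 < p ω ∧ zx (x ω) = zx (X v) ∧
        S (c v) (zx (X v)) ≤ Psi (P (c v) (zx (X v))) (C₀ / 2 ^ L) (rp (2 ^ L) pos (x ω))) →
      Ex r (fun v => Real.log (S (c v) (zx (X v)))) ≤
        Ex r (fun v => Real.log (Psi (P (c v) (zx (X v))) (C₀ / 2 ^ L)
          (rp (2 ^ L) pos (X v)))) +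
          2 * D * (CH r c (fun v => zx (X v)) - CH r c X) +
          C * ((N + 1) * (e₁ + 1) + μ) := by
  classical
  obtain ⟨κ', Cf, hCf, hfil⟩ := fil n D k₀ C₀ hC₀
  obtain ⟨Cg, hCg, hgo⟩ := goc n D C₀ hC₀
  refine ⟨2 * D * (Cg + 1) + Cg + κ' * (1 + Cf), by positivity, ?_⟩
  intro Ω Λ Ξ Z V Γ _ _ p lam x T pos A B zx zl G L N μ e₁ r X c P S hleaf hz hreg
    hgr hmx hμ he₁ he₁0 hr hX hP hS
  have hp := hleaf.isLaw
  have hp0 := hp.nonneg
  have hr0 := hr.nonneg
  have hL0 : (0 : ℝ) ≤ L := Nat.cast_nonneg L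
  have hM : ((2 ^ L : ℕ) : ℝ) = 2 ^ L := by push_cast; rfl
  have hM1 : 1 ≤ 2 ^ L := Nat.one_le_two_pow
  have hlogM : Real.log ((2 ^ L : ℕ) : ℝ) = L * Real.log 2 := by
    rw [hM, Real.log_pow]
  -- the chain
  obtain ⟨W, iW, q, o, o', l, y, hch, hmix⟩ := hmx
  have hq := hch.isLaw
  have hq0 := hq.nonneg
  -- gluing the chain with the random point
  have hZ : ∀ ξ, law q (y 0) ξ = law r X ξ := fun ξ => by
    rw [hch.cell 0 (Nat.zero_le _) ξ, hX ξ]
  set Q : W × V → ℝ := glue q r (y 0) X with hQdef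
  have hQ0 : ∀ u, 0 ≤ Q u := glue_nonneg hq0 hr0
  have m1 : Marg Q q (fun u => u.1) := marg_fst hq0 hZ
  have m2 : Marg Q r (fun u => u.2) := marg_snd hr0 hZ
  have hQ : IsLaw Q := ⟨hQ0, by rw [m1.sum]; exact hq.sum_one⟩
  have hyX : ∀ u, 0 < Q u → y 0 u.1 = X u.2 := fun u hu =>
    ((glue_pos_iff hq0 hr0 u).mp hu).2.2
  have hup1 : ∀ u, 0 < Q u → 0 < q u.1 := fun u hu => m1.pos hQ0 hu
  have hup2 : ∀ u, 0 < Q u → 0 < r u.2 := fun u hu => m2.pos hQ0 hu
  have hci : ∀ (S' Γ' : Type) (a : W → S') (b : V → Γ'),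
      CI Q (fun u => a u.1) (fun u => b u.2) (fun u => y 0 u.1) :=
    fun S' Γ' a b => CI_glue hq0 hr0 hZ a b
  -- the label along the chain
  have hlab1 : ∀ i < N, ∀ w, 0 < q w → zx (y i w) = zl (l i w) := by
    intro i hi w hw
    have h1 := (hch.marg i hi).pos hq0 hw
    rw [← hch.start w hw i hi, ← hch.line w hw i hi]
    exact hz _ h1
  have hlab2 : ∀ i < N, ∀ w, 0 < q w → zx (y (i + 1) w) = zl (l i w) := by
    intro i hi w hw
    have h1 := (hch.marg' i hi).pos hq0 hw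
    rw [← hch.stop w hw i hi, ← hch.line' w hw i hi]
    exact hz _ h1
  have hlab : ∀ i ≤ N, ∀ w, 0 < q w → zx (y i w) = zx (y 0 w) := by
    intro i
    induction i with
    | zero => intro _ _ _; rfl
    | succ i ih =>
      intro hi w hw
      rw [hlab2 i (by omega) w hw, ← hlab1 i (by omega) w hw]
      exact ih (by omega) w hw
  have hsup : ∀ i ≤ N, ∀ w, 0 < q w → ∃ ω, 0 < p ω ∧ x ω = y i w :=
    fun i hi w hw => supp_of_law (hch.cell i hi) hq0 hw
  -- the variable of the polynomial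
  set cz : W × V → Γ × Z := fun u => (c u.2, zx (X u.2)) with hcz
  -- forward
  have E1 := hgo Ω Λ Ξ W (Γ × Z) Z (W × V) p lam x T pos A B zx zl (2 ^ L) N q o o' l y Q
    (fun u => u.1) cz (fun g => P g.1 g.2) e₁ hM1 hleaf hch hz hQ m1
    (fun S' a => hci S' (Γ × Z) a (fun v => (c v, zx (X v))))
    (fun u hu => hP u.2 (hup2 u hu)) (by rw [hlogM]; exact he₁)
  -- the mutual information
  have hMI1 : CH Q cz (fun u => zx (y 0 u.1)) = CH r c (fun v => zx (X v)) := by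
    rw [← m2.CH c (fun v => zx (X v))]
    have e1 : CH Q cz (fun u => zx (y 0 u.1)) = CH Q cz (fun u => zx (X u.2)) := by
      refine CH_congr hQ0 (fun _ _ _ _ h => (Prod.ext_iff.mp h).1)
        (fun _ _ _ _ h => (Prod.ext_iff.mp h).1) ?_ ?_
      · intro u u' a b h
        simp only at h ⊢
        rw [← hyX u a, ← hyX u' b]
        exact h
      · intro u u' a b h
        simp only at h ⊢
        rw [hyX u a, hyX u' b]
        exact h
    rw [e1]
    refine CH_congr hQ0 ?_ ?_ (fun _ _ _ _ h => h) (fun _ _ _ _ h => h)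
    · intro u u' _ _ h
      simp only [hcz, Prod.mk.injEq] at h ⊢
      exact h.1.1
    · intro u u' _ _ h
      simp only [Prod.mk.injEq] at h
      simp only [hcz, Prod.mk.injEq]
      exact h
  have hMI2 : CH Q cz (fun u => y 0 u.1) = CH r c X := by
    rw [← m2.CH c X]
    have e1 : CH Q cz (fun u => y 0 u.1) = CH Q cz (fun u => X u.2) := by
      refine CH_congr hQ0 (fun _ _ _ _ h => (Prod.ext_iff.mp h).1)
        (fun _ _ _ _ h => (Prod.ext_iff.mp h).1) ?_ ?_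
      · intro u u' a b h
        simp only at h ⊢
        rw [← hyX u a, ← hyX u' b]
        exact h
      · intro u u' a b h
        simp only at h ⊢
        rw [hyX u a, hyX u' b]
        exact h
    rw [e1]
    refine CH_congr hQ0 ?_ ?_ (fun _ _ _ _ h => h) (fun _ _ _ _ h => h)
    · intro u u' _ _ h
      simp only [hcz, Prod.mk.injEq] at h ⊢
      exact h.1.1
    · intro u u' _ _ h
      simp only [Prod.mk.injEq] at h
      simp only [hcz, Prod.mk.injEq]
      exact ⟨h.1, by rw [h.2]⟩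
  -- start
  have E0 : Ex Q (fun u => Real.log (Psi (P (cz u).1 (cz u).2) (C₀ / ((2 ^ L : ℕ) : ℝ))
      (rp (2 ^ L) pos (y 0 u.1)))) =
      Ex r (fun v => Real.log (Psi (P (c v) (zx (X v))) (C₀ / 2 ^ L)
        (rp (2 ^ L) pos (X v)))) := by
    rw [← m2.ex (fun v => Real.log (Psi (P (c v) (zx (X v))) (C₀ / 2 ^ L)
        (rp (2 ^ L) pos (X v))))]
    unfold Ex
    refine Finset.sum_congr rfl fun u _ => ?_
    by_cases hu : 0 < Q u
    · simp only [hcz]
      rw [hyX u hu, hM]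
    · have : Q u = 0 := le_antisymm (not_lt.mp hu) (hQ0 u)
      rw [this, zero_mul, zero_mul]
  -- filling
  have hrp01 : ∀ ω i, 0 ≤ rp (2 ^ L) pos (x ω) i ∧ rp (2 ^ L) pos (x ω) i ≤ 1 := by
    intro ω i
    have h1 := hleaf.pos_lt ω i
    simp only [rp]
    have h2 : (0 : ℝ) < ((2 ^ L : ℕ) : ℝ) := by rw [hM]; positivity
    refine ⟨by positivity, ?_⟩
    rw [div_le_one h2]
    exact_mod_cast h1.le
  have F1 := hfil (W × V) (Γ × Z) Q (2 ^ L) 1 cz (fun u i => pos (y N u.1) (some i))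
    (fun u => rp (2 ^ L) pos (y N u.1)) (fun _ _ => 0) (fun g => G g.2) (fun g => P g.1 g.2)
    (fun g => S g.1 g.2) hQ le_rfl hM1
    (by
      intro u hu i
      obtain ⟨ω, hω, hx⟩ := hsup N le_rfl u.1 (hup1 u hu)
      rw [← hx]
      exact hleaf.pos_lt ω (some i))
    (fun u hu => hP u.2 (hup2 u hu))
    (by
      intro u hu
      obtain ⟨ω, hω, hx⟩ := hsup N le_rfl u.1 (hup1 u hu)
      have h1 := hreg ω hω
      rw [hx, hlab N le_rfl _ (hup1 u hu), hyX u hu] at h1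
      simp only [hcz, Nat.cast_one, div_one]
      exact h1)
    (by
      intro u hu i
      simp only [rp, Nat.cast_one, one_mul, zero_add])
    (by
      intro u hu
      obtain ⟨ω, hω, hx⟩ := hsup N le_rfl u.1 (hup1 u hu)
      have h1 := hgr ω hω
      rw [hx, hlab N le_rfl _ (hup1 u hu), hyX u hu] at h1
      simp only [hcz, Nat.cast_one, one_mul]
      rw [hM]
      exact h1)
    (by
      intro u hu
      obtain ⟨hS0, ω', hω', hzω', hS'⟩ := hS u.2 (hup2 u hu)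
      obtain ⟨ω, hω, hx⟩ := hsup N le_rfl u.1 (hup1 u hu)
      refine ⟨hS0, rp (2 ^ L) pos (x ω'), ?_, ?_, ?_, ?_⟩
      · intro i
        have h1 := hrp01 ω' (some i)
        simp only [Nat.cast_one, div_one, zero_add]
        exact h1
      · have h1 := hrp01 ω' none
        have h2 := hrp01 ω none
        rw [hx] at h2
        rw [abs_le]
        constructor <;> linarith
      · have h1 := hgr ω' hω'
        rw [hzω'] at h1
        simp only [hcz, Nat.cast_one, one_mul]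
        rw [hM]
        exact h1
      · simp only [hcz, Nat.cast_one, one_mul]
        rw [hM]
        exact hS')
  -- the deficit
  have hdef : n * Real.log ((2 ^ L : ℕ) : ℝ) -
      CH Q (fun u i => pos (y N u.1) (some i)) cz ≤ μ := by
    have a1 : CH Q (fun u => bas pos (y N u.1)) (fun u => (cz u, y 0 u.1)) =
        CH Q (fun u => bas pos (y N u.1)) (fun u => y 0 u.1) := by
      exact hci _ (Γ × Z) (fun w => bas pos (y N w)) (fun v => (c v, zx (X v)))
    have a2 : CH Q (fun u => bas pos (y N u.1)) (fun u => y 0 u.1) =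
        CH q (fun w => bas pos (y N w)) (y 0) := m1.CH (fun w => bas pos (y N w)) (y 0)
    have a6 : CH Q (fun u => bas pos (y N u.1)) (fun u => (cz u, y 0 u.1)) ≤
        CH Q (fun u => bas pos (y N u.1)) cz :=
      CH_mono_cond hQ0 (fun u u' _ _ h => (Prod.ext_iff.mp h).1)
    have a7 : CH Q (fun u i => pos (y N u.1) (some i)) cz =
        CH Q (fun u => bas pos (y N u.1)) cz := rfl
    rw [a7, hlogM]
    linarith
  -- the sum
  rw [hMI1, hMI2, E0] at E1
  have F2 : Ex Q (fun u => Real.log (S (cz u).1 (cz u).2)) =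
      Ex r (fun v => Real.log (S (c v) (zx (X v)))) :=
    m2.ex (fun v => Real.log (S (c v) (zx (X v))))
  have F3 : Ex Q (fun u => Real.log (Psi (P (cz u).1 (cz u).2)
      (C₀ / (((1 : ℕ) : ℝ) * ((2 ^ L : ℕ) : ℝ))) (rp (2 ^ L) pos (y N u.1)))) =
      Ex Q (fun u => Real.log (Psi (P (cz u).1 (cz u).2) (C₀ / ((2 ^ L : ℕ) : ℝ))
      (rp (2 ^ L) pos (y N u.1)))) := by
    rw [Nat.cast_one, one_mul]
  rw [F2, F3] at F1
  have hκ' : (0 : ℝ) ≤ κ' := Nat.cast_nonneg κ'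
  have hD : (0 : ℝ) ≤ D := Nat.cast_nonneg D
  have hN : (0 : ℝ) ≤ N := Nat.cast_nonneg N
  have G1 := mul_le_mul_of_nonneg_left hdef hκ'
  set R : ℝ := (N + 1) * (e₁ + 1) + μ with hR
  have hN0 : (0 : ℝ) ≤ N * (e₁ + 1) := by positivity
  have hR1 : 1 ≤ R := by
    rw [hR]
    linarith
  have hμR : μ ≤ R := by
    rw [hR]
    linarith
  have hNR : (N : ℝ) * (e₁ + 1) ≤ R := by
    rw [hR]
    linarith
  have T1 : μ + Cf ≤ (1 + Cf) * R := by
    have b3 : Cf * 1 ≤ Cf * R := mul_le_mul_of_nonneg_left hR1 hCf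
    linarith
  have T2 : N * (e₁ + Cg) ≤ (Cg + 1) * R := by
    have b1 : (N : ℝ) * (e₁ + Cg) ≤ (Cg + 1) * (N * (e₁ + 1)) := by
      have h1 : (0 : ℝ) ≤ N * (Cg * e₁ + 1) := by positivity
      have h2 : (Cg + 1) * (N * (e₁ + 1)) = N * (e₁ + Cg) + N * (Cg * e₁ + 1) := by ring
      linarith
    have b2 : (Cg + 1) * (N * (e₁ + 1)) ≤ (Cg + 1) * R :=
      mul_le_mul_of_nonneg_left hNR (by positivity)
    linarith
  have T3 : N * Cg ≤ Cg * R := by
    have b1 : (N : ℝ) * Cg ≤ Cg * (N * (e₁ + 1)) := by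
      have h1 : (0 : ℝ) ≤ N * (Cg * e₁) := by positivity
      have h2 : Cg * (N * (e₁ + 1)) = N * Cg + N * (Cg * e₁) := by ring
      linarith
    have b2 := mul_le_mul_of_nonneg_left hNR hCg
    linarith
  have T1' := mul_le_mul_of_nonneg_left T1 hκ'
  have T2' := mul_le_mul_of_nonneg_left T2 (by positivity : (0 : ℝ) ≤ 2 * D)
  have key : Ex r (fun v => Real.log (S (c v) (zx (X v)))) ≤
      Ex r (fun v => Real.log (Psi (P (c v) (zx (X v))) (C₀ / 2 ^ L) (rp (2 ^ L) pos (X v)))) +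
      2 * D * (CH r c (fun v => zx (X v)) - CH r c X) +
      (2 * D * (N * (e₁ + Cg)) + N * Cg + κ' * (μ + Cf)) := by
    linarith
  refine key.trans ?_
  have fin : (2 * D * (N * (e₁ + Cg)) + N * Cg + κ' * (μ + Cf)) ≤
      (2 * D * (Cg + 1) + Cg + κ' * (1 + Cf)) * R := by
    linarith
  linarith

end Pool.KJA
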