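import Pool.Agent.H86.KJ.Ani
import Pool.Agent.H82.KSP.DEG

/-!
# The norms of the leaves, without fans
-/

set_option autoImplicit false

namespace Pool.KJA

open Finset Real
open Pool.Agent.H49.Ent Pool.Agent.H32.Dense Pool.STK Pool.KAF Pool.KAL Pool.KST Pool.KS3

/-- Row LRG': the norm of a leaf against the jet at a random point, units of the long window. -/
theorem lrg_mx (n D k₀ : ℕ) (C₀ : ℝ) (hC₀ : 1 ≤ C₀) : ∃ C : ℝ, 0 ≤ C ∧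
    ∀ (a L : ℕ) (Ω Λ Ξ Z V Γ : Type) [Fintype Ω] [Fintype V] (p : Ω → ℝ) (lam : Ω → Λ)
      (x : Ω → Ξ) (T : Ξ → ℕ) (pos : Ξ → Option (Fin n) → ℕ) (A B : Λ → Option (Fin n) → ℝ)
      (zx : Ξ → Z) (zl : Λ → ℕ → Z) (cz : Z → Option (Fin n) → ℕ)
      (G : Z → MvPolynomial (Fin n) ℝ) (N : ℕ) (μ e₁ s : ℝ)
      (r : V → ℝ) (X : V → Ξ) (c : V → Γ)
      (P : Γ → MvPolynomial.restrictTotalDegree (Option (Fin n)) ℝ D),
      StepF n a L C₀ p lam x T pos A B zx zl cz →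
      (∀ ω, 0 < p ω → RegG (G (zx (x ω))) (fun _ => 0) 1 k₀ (3 * C₀)) →
      (∀ ω, 0 < p ω → |rp (2 ^ L) (posS pos L) (x ω) none - MvPolynomial.eval
        (fun i => rp (2 ^ L) (posS pos L) (x ω) (some i)) (G (zx (x ω)))| ≤ 3 * C₀ / 2 ^ L) →
      Mx L N μ p (lamS lam x T L) x (posS pos L) → 0 ≤ μ →
      L * Real.log 2 - CH p (fun ω => TS T L (x ω)) (lamS lam x T L) ≤ e₁ → 0 ≤ e₁ →
      0 < s → s ≤ 1 → IsLaw r → (∀ ξ, law r X ξ = law p x ξ) → (∀ g, P g ≠ 0) →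
      Ex r (fun v => Real.log (NZ D p x zx (2 ^ (a + L)) pos (6 * C₀ / 2 ^ (a + L)) s
        (zx (X v)) (P (c v)))) ≤
        Ex r (fun v => Real.log (PsiC s (P (c v) : MvPolynomial (Option (Fin n)) ℝ)
          (6 * C₀ / 2 ^ (a + L)) (rp (2 ^ (a + L)) pos (X v)))) +
          2 * D * (CH r c (fun v => zx (X v)) - CH r c X) +
          C * ((N + 1) * (e₁ + 1) + μ) := by
  classical
  have h3C : (1 : ℝ) ≤ 3 * C₀ := by linarith
  obtain ⟨Ca, hCa, hlrpa⟩ := lrpa_mx n D k₀ (3 * C₀) h3C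
  refine ⟨Ca, hCa, ?_⟩
  intro a L Ω Λ Ξ Z V Γ _ _ p lam x T pos A B zx zl cz G N μ e₁ s r X c P hF hreg hgr
    hmx hμ he₁ he₁0 hs0 hs1 hr hX hPne
  have hp := hF.leaf.isLaw
  have hp0 := hp.nonneg
  have hr0 := hr.nonneg
  set h : ℝ := 6 * C₀ / 2 ^ (a + L) with hh
  have hh0 : 0 < h := by positivity
  set M : ℕ := 2 ^ (a + L) with hM
  have hPne' : ∀ g, (P g : MvPolynomial (Option (Fin n)) ℝ) ≠ 0 := fun g h0 =>
    hPne g (Subtype.ext h0)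
  have hsup : ∀ v, 0 < r v → ∃ ω, 0 < p ω ∧ x ω = X v :=
    fun v hv => supp_of_law (X := x) (fun ξ => hX ξ) hr0 hv
  have hpd : ∀ g ζ, shf (P g : MvPolynomial (Option (Fin n)) ℝ) (1 / 2 ^ a) (crz cz a ζ) ≠ 0 := by
    intro g ζ h0
    have h1 := Psi_pos (P g : MvPolynomial (Option (Fin n)) ℝ) (hPne' g) (1 / 2 ^ a)
      (by positivity) (crz cz a ζ)
    unfold Psi at h1
    rw [h0, coefSum_zero] at h1
    exact lt_irrefl _ h1
  have e0 : 2 * (3 * C₀) = 6 * C₀ := by ring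
  have E2 := hlrpa Ω (Λ × ℕ) Ξ Z V Γ p (lamS lam x T L) x (TS T L) (posS pos L)
    (AS A B zl cz a) (BS B) zx (fun l => zl l.1 l.2) G L N μ e₁ s r X c
    (fun g ζ => shf (P g : MvPolynomial (Option (Fin n)) ℝ) (1 / 2 ^ a) (crz cz a ζ))
    (fun g ζ => NZ D p x zx M pos h s ζ (P g))
    (hF.small hC₀) (fun ω _ => hF.lab ω) hreg hgr hmx hμ he₁ he₁0
    hs0 hs1 hr hX
    (fun v _ => ⟨hpd _ _, (totalDegree_shf_le _ _ _).trans (deg_le _)⟩)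
    (by
      intro v hv
      obtain ⟨ω₀, hω₀, hx⟩ := hsup v hv
      refine ⟨NZ_pos hh0 hs0 _ (hPne _), ?_⟩
      obtain ⟨ω, hω, hzω, he'⟩ := NZ_attained (D := D) (x := x) (zx := zx) (M := M) (pos := pos)
        (h := h) hs0.ne' hω₀ (P (c v))
      rw [hx] at hzω he'
      refine ⟨ω, hω, hzω, ?_⟩
      rw [he', ← hzω, e0, hF.PsiC_eq hs0.ne'])
  have E3 : Ex r (fun v => Real.log (PsiC s
      (shf (P (c v) : MvPolynomial (Option (Fin n)) ℝ) (1 / 2 ^ a) (crz cz a (zx (X v))))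
      (2 * (3 * C₀) / 2 ^ L) (rp (2 ^ L) (posS pos L) (X v)))) =
      Ex r (fun v => Real.log (PsiC s (P (c v) : MvPolynomial (Option (Fin n)) ℝ) h
      (rp M pos (X v)))) := by
    unfold Ex
    refine Finset.sum_congr rfl fun v _ => ?_
    by_cases hv : 0 < r v
    · obtain ⟨ω₀, hω₀, hx⟩ := hsup v hv
      simp only
      rw [e0, ← hx, hF.PsiC_eq hs0.ne']
    · have : r v = 0 := le_antisymm (not_lt.mp hv) (hr0 v)
      rw [this, zero_mul, zero_mul]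
  rw [E3] at E2
  exact E2

/-- Row LRZ: the polynomial is a function of the label. -/
theorem lrz_mx (n D k₀ : ℕ) (C₀ : ℝ) (hC₀ : 1 ≤ C₀) : ∃ C : ℝ, 0 ≤ C ∧
    ∀ (a L : ℕ) (Ω Λ Ξ Z : Type) [Fintype Ω] (p : Ω → ℝ) (lam : Ω → Λ)
      (x : Ω → Ξ) (T : Ξ → ℕ) (pos : Ξ → Option (Fin n) → ℕ) (A B : Λ → Option (Fin n) → ℝ)
      (zx : Ξ → Z) (zl : Λ → ℕ → Z) (cz : Z → Option (Fin n) → ℕ)
      (G : Z → MvPolynomial (Fin n) ℝ) (N : ℕ) (μ e₁ s : ℝ)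
      (F : Z → MvPolynomial.restrictTotalDegree (Option (Fin n)) ℝ D),
      StepF n a L C₀ p lam x T pos A B zx zl cz →
      (∀ ω, 0 < p ω → RegG (G (zx (x ω))) (fun _ => 0) 1 k₀ (3 * C₀)) →
      (∀ ω, 0 < p ω → |rp (2 ^ L) (posS pos L) (x ω) none - MvPolynomial.eval
        (fun i => rp (2 ^ L) (posS pos L) (x ω) (some i)) (G (zx (x ω)))| ≤ 3 * C₀ / 2 ^ L) →
      Mx L N μ p (lamS lam x T L) x (posS pos L) → 0 ≤ μ →
      L * Real.log 2 - CH p (fun ω => TS T L (x ω)) (lamS lam x T L) ≤ e₁ → 0 ≤ e₁ →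
      0 < s → s ≤ 1 → (∀ ζ, F ζ ≠ 0) →
      Ex p (fun ω => Real.log (NZ D p x zx (2 ^ (a + L)) pos (6 * C₀ / 2 ^ (a + L)) s
        (zx (x ω)) (F (zx (x ω))))) ≤
        Ex p (fun ω => Real.log (PsiC s (F (zx (x ω)) : MvPolynomial (Option (Fin n)) ℝ)
          (6 * C₀ / 2 ^ (a + L)) (rp (2 ^ (a + L)) pos (x ω)))) +
          C * ((N + 1) * (e₁ + 1) + μ) := by
  classical
  obtain ⟨C, hC, H⟩ := lrg_mx n D k₀ C₀ hC₀
  refine ⟨C, hC, ?_⟩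
  intro a L Ω Λ Ξ Z _ p lam x T pos A B zx zl cz G N μ e₁ s F hF hreg hgr
    hmx hμ he₁ he₁0 hs0 hs1 hFne
  have hp0 := hF.leaf.isLaw.nonneg
  have h1 := H a L Ω Λ Ξ Z Ω Z p lam x T pos A B zx zl cz G N μ e₁ s p x
    (fun ω => zx (x ω)) F hF hreg hgr hmx hμ he₁ he₁0 hs0 hs1 hF.leaf.isLaw
    (fun _ => rfl) hFne
  have h2 : CH p (fun ω => zx (x ω)) (fun ω => zx (x ω)) = 0 :=
    CH_eq_zero hp0 (fun _ _ _ _ h => h)
  have h3 : CH p (fun ω => zx (x ω)) x = 0 := CH_eq_zero hp0 (fun ω ω' _ _ h => by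
    have h4 : x ω = x ω' := h
    simp only [h4])
  rw [h2, h3, sub_zero, mul_zero, add_zero] at h1
  exact h1


end Pool.KJA
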