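import Pool.Agent.H86.KJ.Lru
import Pool.Agent.H82.KSP.GMK

/-!
# General masks, without fans
-/

set_option autoImplicit false

namespace Pool.KJA

open Finset Real Module
open Pool.Agent.H49.Ent Pool.Agent.H32.Dense Pool.STK Pool.KAF Pool.KAL Pool.KST Pool.KS3

/-- Row DEG with a general mask. -/
theorem deg_mx (n D k₀ : ℕ) (C₀ : ℝ) (hC₀ : 1 ≤ C₀) : ∃ C : ℝ, 0 ≤ C ∧
    ∀ (a L : ℕ) (Ω Λ Ξ Z : Type) [Fintype Ω] (p : Ω → ℝ) (lam : Ω → Λ)
      (x : Ω → Ξ) (T : Ξ → ℕ) (pos : Ξ → Option (Fin n) → ℕ) (A B : Λ → Option (Fin n) → ℝ)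
      (zx : Ξ → Z) (zl : Λ → ℕ → Z) (cz : Z → Option (Fin n) → ℕ)
      (G : Z → MvPolynomial (Fin n) ℝ) (N : ℕ) (μ e₁ s : ℝ)
      (F : Z → MvPolynomial.restrictTotalDegree (Option (Fin n)) ℝ D) (χ : Λ × ℕ → Ω → Bool),
      StepF n a L C₀ p lam x T pos A B zx zl cz →
      (∀ ω, 0 < p ω → RegG (G (zx (x ω))) (fun _ => 0) 1 k₀ (3 * C₀)) →
      (∀ ω, 0 < p ω → |rp (2 ^ L) (posS pos L) (x ω) none - MvPolynomial.eval
        (fun i => rp (2 ^ L) (posS pos L) (x ω) (some i)) (G (zx (x ω)))| ≤ 3 * C₀ / 2 ^ L) →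
      Mx L N μ p (lamS lam x T L) x (posS pos L) → 0 ≤ μ →
      L * Real.log 2 - CH p (fun ω => TS T L (x ω)) (lamS lam x T L) ≤ e₁ → 0 ≤ e₁ →
      0 < s → s ≤ 1 → (∀ ζ, F ζ ≠ 0) →
      Ex (dbl p lam) (fun v => if χ (lamS lam x T L v.1) v.2 then
        Real.log (NZ D p x zx (2 ^ (a + L)) pos (6 * C₀ / 2 ^ (a + L)) s (zx (x v.2))
          (F (zx (x v.1)))) -
        Real.log (NZ D p x zx (2 ^ (a + L)) pos (6 * C₀ / 2 ^ (a + L)) s (zx (x v.1))
          (F (zx (x v.1)))) else 0) ≤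
      2 * D * (a * Real.log 2) +
        2 * D * (CH (dbl p lam) (mk2 lam x T L zx χ) (fun v => zx (x v.2)) -
          CH (dbl p lam) (mk2 lam x T L zx χ) (fun v => x v.2)) +
        C * ((N + 1) * (e₁ + 1) + μ) := by
  classical
  obtain ⟨Ca, hCa, hlrg⟩ := lrg_mx n D k₀ C₀ hC₀
  obtain ⟨Co, hCo, hone⟩ := one n D C₀ hC₀
  refine ⟨Ca + Co + 2 * D, by positivity, ?_⟩
  intro a L Ω Λ Ξ Z _ p lam x T pos A B zx zl cz G N μ e₁ s F χ hF hreg hgr hmx hμ he₁ he₁0 hs0 hs1 hFne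
  have hp := hF.leaf.isLaw
  have hp0 := hp.nonneg
  set q := dbl p lam with hqdef
  have hq0 : ∀ v, 0 ≤ q v := dbl_nonneg hp0
  have m1 : Marg q p (fun v => v.1) := dbl_fst hp0
  have m2 : Marg q p (fun v => v.2) := dbl_snd hp0
  have hq : IsLaw q := ⟨hq0, by rw [m1.sum]; exact hp.sum_one⟩
  set h : ℝ := 6 * C₀ / 2 ^ (a + L) with hh
  have hh0 : 0 < h := by positivity
  set M : ℕ := 2 ^ (a + L) with hM
  -- the polynomial
  set Pc : Option Z → MvPolynomial.restrictTotalDegree (Option (Fin n)) ℝ D :=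
    fun g => g.elim (onV _ D) F with hPc
  have hPne : ∀ g, Pc g ≠ 0 := by
    intro g
    cases g with
    | none => exact onV_ne_zero _ _
    | some ζ => exact hFne ζ
  have hPne' : ∀ g, (Pc g : MvPolynomial (Option (Fin n)) ℝ) ≠ 0 := fun g h0 =>
    hPne g (Subtype.ext h0)
  set c : Ω × Ω → Option Z := mk2 lam x T L zx χ with hc
  have hdet : Det q (fun v => ((lam v.1, T (x v.1) / 2 ^ L), v.2)) c := by
    intro v v' _ _ hv
    simp only [Prod.mk.injEq] at hv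
    have e1 : zx (x v.1) = zx (x v'.1) := by
      rw [hF.lab v.1, hF.lab v'.1, hv.1.1, hv.1.2]
    have e2 : lamS lam x T L v.1 = lamS lam x T L v'.1 := Prod.ext hv.1.1 hv.1.2
    simp only [hc, mk2]
    rw [e1, e2, hv.2]
  -- from the first incidence to the second
  have E1 : Ex q (fun v => Real.log (PsiC s (Pc (c v) : MvPolynomial (Option (Fin n)) ℝ) h
      (rp M pos (x v.2)))) ≤
      Ex q (fun v => Real.log (PsiC s (Pc (c v) : MvPolynomial (Option (Fin n)) ℝ) h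
      (rp M pos (x v.1)))) + 2 * D * (a * Real.log 2 + e₁) + Co :=
    hone a L Ω Λ Ξ Z (Option Z) p lam x T pos A B zx zl cz s c
      (fun g => (Pc g : MvPolynomial (Option (Fin n)) ℝ)) e₁ hF hs0 hs1 hdet
      (fun v _ => ⟨hPne' _, deg_le _⟩) he₁
  have E0 : Ex q (fun v => Real.log (PsiC s (Pc (c v) : MvPolynomial (Option (Fin n)) ℝ) h
      (rp M pos (x v.1)))) ≤
      Ex q (fun v => Real.log (NZ D p x zx M pos h s (zx (x v.1)) (Pc (c v)))) := by
    refine Ex_mono hq0 fun v hv => ?_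
    exact Real.log_le_log (PsiC_pos hs0.ne' (hPne' _) hh0 _)
      (le_NZ hs0.ne' (m1.pos hq0 hv) _)
  -- from the second incidence to its leaf
  have E2 : Ex q (fun v => Real.log (NZ D p x zx M pos h s (zx (x v.2)) (Pc (c v)))) ≤
      Ex q (fun v => Real.log (PsiC s (Pc (c v) : MvPolynomial (Option (Fin n)) ℝ) h
      (rp M pos (x v.2)))) + 2 * D * (CH q c (fun v => zx (x v.2)) - CH q c (fun v => x v.2)) +
      Ca * ((N + 1) * (e₁ + 1) + μ) :=
    hlrg a L Ω Λ Ξ Z (Ω × Ω) (Option Z) p lam x T pos A B zx zl cz G N μ e₁ s q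
      (fun v => x v.2) c Pc hF hreg hgr hmx hμ he₁ he₁0 hs0 hs1 hq
      (fun ξ => m2.law x ξ) hPne
  -- the goal
  have E4 : Ex q (fun v => if χ (lamS lam x T L v.1) v.2 then
      Real.log (NZ D p x zx M pos h s (zx (x v.2)) (F (zx (x v.1)))) -
      Real.log (NZ D p x zx M pos h s (zx (x v.1)) (F (zx (x v.1)))) else 0) =
      Ex q (fun v => Real.log (NZ D p x zx M pos h s (zx (x v.2)) (Pc (c v)))) -
      Ex q (fun v => Real.log (NZ D p x zx M pos h s (zx (x v.1)) (Pc (c v)))) := by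
    rw [← Ex_sub]
    unfold Ex
    refine Finset.sum_congr rfl fun v _ => ?_
    congr 1
    simp only [hPc, hc, mk2]
    split_ifs with h1
    · rfl
    · simp only [Option.elim]
      rw [NZ_one, NZ_one, sub_self]
  rw [E4]
  set R : ℝ := (N + 1) * (e₁ + 1) + μ with hR
  have hR1 : e₁ + 1 ≤ R := by
    have hN : (0 : ℝ) ≤ N := Nat.cast_nonneg N
    have h8 : 0 ≤ (N : ℝ) * (e₁ + 1) := by positivity
    rw [hR]
    linarith
  have h2D : (0 : ℝ) ≤ 2 * D := by positivity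
  have J3 : Co * 1 ≤ Co * R := mul_le_mul_of_nonneg_left (by linarith) hCo
  have J4 : 2 * D * e₁ ≤ 2 * D * R := mul_le_mul_of_nonneg_left (by linarith) h2D
  have J5 : (Ca + Co + 2 * D) * R = Ca * R + Co * R + 2 * D * R := by ring
  rw [J5]
  linarith

/-- Row RND with a general mask. -/
theorem rnd_mx (n D : ℕ) (C₀ p₀ : ℝ) (hC₀ : 1 ≤ C₀) (hp₀ : 0 < p₀) : ∃ C₁ : ℝ, 1 ≤ C₁ ∧
    ∀ k₀ : ℕ, ∃ C₂ : ℝ, 1 ≤ C₂ ∧
    ∀ (a L : ℕ) (Ω Λ Ξ Z : Type) [Fintype Ω] (p : Ω → ℝ) (lam : Ω → Λ)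
      (x : Ω → Ξ) (T : Ξ → ℕ) (pos : Ξ → Option (Fin n) → ℕ) (A B : Λ → Option (Fin n) → ℝ)
      (zx : Ξ → Z) (zl : Λ → ℕ → Z) (cz : Z → Option (Fin n) → ℕ)
      (G : Z → MvPolynomial (Fin n) ℝ) (N : ℕ) (μ e₁ e₃ s mi pG : ℝ)
      (gG : Λ × ℕ → Ω → Bool),
      StepA n a L C₀ k₀ N μ e₁ e₃ p lam x T pos A B zx zl cz G →
      0 < s → s ≤ 1 → 0 ≤ mi →
      (∀ χ : Λ × ℕ → Ω → Bool, (∀ l ω, χ l ω = true → gG l ω = true) →
        CH (dbl p lam) (mk2 lam x T L zx χ) (fun v => zx (x v.2)) -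
          CH (dbl p lam) (mk2 lam x T L zx χ) (fun v => x v.2) ≤ mi) →
      (∑ v, if gG (lamS lam x T L v.1) v.2 = true then 0 else dbl p lam v) ≤ pG →
      ∃ y : Seminorm ℝ (MvPolynomial.restrictTotalDegree (Option (Fin n)) ℝ D) →
          Seminorm ℝ (MvPolynomial.restrictTotalDegree (Option (Fin n)) ℝ D),
        (∀ M, IsN M → Dl M (y M) (C₁ * (a + mi) + C₂ * RA N e₁ e₃ μ)) ∧
        (∑ v, (open Classical in
          if y (NZ D p x zx (2 ^ (a + L)) pos (6 * C₀ / 2 ^ (a + L)) s (zx (x v.1))) ≠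
            y (NZ D p x zx (2 ^ (a + L)) pos (6 * C₀ / 2 ^ (a + L)) s (zx (x v.2))) then
          dbl p lam v else 0)) ≤ p₀ + 2 * pG := by
  classical
  set V := MvPolynomial.restrictTotalDegree (Option (Fin n)) ℝ D with hV
  have hK0 : 0 < finrank ℝ V := finrank_poly_pos _ D
  set K : ℕ := finrank ℝ V with hK
  have hK1 : (1 : ℝ) ≤ K := by exact_mod_cast hK0
  have hlK : 0 ≤ Real.log K := Real.log_nonneg hK1
  obtain ⟨Cn, hCn, hnr⟩ := norm_rounding_law K
  have hl2 : 0 < Real.log 2 := Real.log_pos (by norm_num)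
  have hl2' : Real.log 2 ≤ 1 := by
    have := Real.log_two_lt_d9
    linarith
  set Lr : ℝ := 6 * K / p₀ + 1 with hLr
  have hLr1 : 1 ≤ Lr := by
    rw [hLr]
    have : 0 ≤ 6 * (K : ℝ) / p₀ := by positivity
    linarith
  have hCL : 1 ≤ Cn * Lr := by nlinarith
  set q₁ : ℝ := Cn * Lr * (4 * K / p₀) with hq₁
  have hq₁0 : 0 ≤ q₁ := by positivity
  refine ⟨q₁ * (2 * D) + 1, by
    have : 0 ≤ q₁ * (2 * D) := by positivity
    linarith, ?_⟩
  intro k₀
  obtain ⟨Cd, hCd, hdeg⟩ := deg_mx n D k₀ C₀ hC₀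
  refine ⟨q₁ * (Cd + 1) + Cn * Lr * (Real.log K + 1), ?_, ?_⟩
  · have h1 : 0 ≤ q₁ * (Cd + 1) := by positivity
    have h2 : 1 ≤ Cn * Lr * (Real.log K + 1) := by nlinarith
    linarith
  intro a L Ω Λ Ξ Z _ p lam x T pos A B zx zl cz G N μ e₁ e₃ s mi pG gG hF hs0 hs1 hmi0
    hmi hpG
  have hp := hF.step.leaf.isLaw
  have hp0 := hp.nonneg
  set q := dbl p lam with hqdef
  have hq0 : ∀ v, 0 ≤ q v := dbl_nonneg hp0
  have m1 : Marg q p (fun v => v.1) := dbl_fst hp0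
  have hq : IsLaw q := ⟨hq0, by rw [m1.sum]; exact hp.sum_one⟩
  set h : ℝ := 6 * C₀ / 2 ^ (a + L) with hh
  have hh0 : 0 < h := by positivity
  set M : ℕ := 2 ^ (a + L) with hM
  set R : ℝ := RA N e₁ e₃ μ with hR
  obtain ⟨-, hR1, -⟩ := hF.le_RA
  rw [← hR] at hR1
  set del : ℝ := 2 * D * (a * Real.log 2) + 2 * D * mi + Cd * R with hdel
  have hdel0 : 0 ≤ del := by positivity
  set Nz : Z → Seminorm ℝ V := fun ζ => NZ D p x zx M pos h s ζ with hNz
  have hNzN : ∀ ζ, IsN (Nz ζ) := fun ζ => NZ_isN hh0 hs0 ζ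
  -- the polynomial depends on the first label
  have hlb : ∀ v : Ω × Ω, zl (lamS lam x T L v.1).1 (lamS lam x T L v.1).2 = zx (x v.1) :=
    fun v => (hF.step.lab v.1).symm
  have H1 : ∀ (P : Z → V) (χ : Z → Z → Bool), (∀ a, P a ≠ 0) →
      Ex q (fun v => if gG (lamS lam x T L v.1) v.2 = true ∧
        χ (zx (x v.1)) (zx (x v.2)) = true then
        Real.log (Nz (zx (x v.2)) (P (zx (x v.1)))) -
        Real.log (Nz (zx (x v.1)) (P (zx (x v.1)))) else 0) ≤ del := by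
    intro P χ hP
    have h1 := hdeg a L Ω Λ Ξ Z p lam x T pos A B zx zl cz G N μ e₁ s P
      (fun l ω => gG l ω && χ (zl l.1 l.2) (zx (x ω))) hF.step hF.reg hF.gr hF.mix hF.hμ
      hF.he₁ hF.he₁0 hs0 hs1 hP
    have h2 := hmi (fun l ω => gG l ω && χ (zl l.1 l.2) (zx (x ω))) (fun l ω h => by
      rw [Bool.and_eq_true] at h
      exact h.1)
    have h3 : (0 : ℝ) ≤ 2 * D := by positivity
    have h4 := mul_le_mul_of_nonneg_left h2 h3
    simp only [Bool.and_eq_true, hlb] at h1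
    refine h1.trans ?_
    have h5 : Cd * ((N + 1) * (e₁ + 1) + μ) ≤ Cd * RA N e₁ e₃ μ :=
      mul_le_mul_of_nonneg_left hF.lrp_le hCd
    rw [hdel, hR]
    linarith
  have H2 : ∀ (P : Z → V) (χ : Z → Z → Bool), (∀ a, P a ≠ 0) →
      Ex q (fun v => if gG (lamS lam x T L v.2) v.1 = true ∧ χ (zx (x v.2)) (zx (x v.1)) = true then
        Real.log (Nz (zx (x v.1)) (P (zx (x v.2)))) -
        Real.log (Nz (zx (x v.2)) (P (zx (x v.2)))) else 0) ≤ del := by
    intro P χ hP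
    refine le_trans (le_of_eq ?_) (H1 P χ hP)
    exact (dbl_symm p lam).ex (fun v => if gG (lamS lam x T L v.1) v.2 = true ∧
        χ (zx (x v.1)) (zx (x v.2)) = true then
        Real.log (Nz (zx (x v.2)) (P (zx (x v.1)))) -
        Real.log (Nz (zx (x v.1)) (P (zx (x v.1)))) else 0)
  obtain ⟨d, hd0, hdD, hdE⟩ := lrn_on hK0 hq (fun v => zx (x v.1)) (fun v => zx (x v.2))
    (fun v => gG (lamS lam x T L v.1) v.2 = true) (fun v => gG (lamS lam x T L v.2) v.1 = true)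
    Nz Nz hNzN hNzN del
    (fun P χ hP => le_trans (le_of_eq (congrArg (Ex q) (funext fun v => ite_dec _ _ _ _ _)))
      (H1 P χ hP))
    (fun P χ hP => le_trans (le_of_eq (congrArg (Ex q) (funext fun v => ite_dec _ _ _ _ _)))
      (H2 P χ hP))
  set hm : ℝ := 4 * K * (del + 1) / p₀ + 1 with hhm
  have hm1 : 1 ≤ hm := by
    rw [hhm]
    have : 0 ≤ 4 * (K : ℝ) * (del + 1) / p₀ := by positivity
    linarith
  have hmk := lrn_on_markov hq (fun v => zx (x v.1)) (fun v => zx (x v.2))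
    (fun v => gG (lamS lam x T L v.1) v.2 = true ∧ gG (lamS lam x T L v.2) v.1 = true) Nz Nz
    (Real.log K) _ hm (by linarith) d hd0 hdD
    (le_trans (le_of_eq (congrArg (Ex q) (funext fun v => ite_dec _ _ _ _ _))) hdE)
  -- the good events
  have hG2 : ∑ v, (if gG (lamS lam x T L v.1) v.2 = true ∧ gG (lamS lam x T L v.2) v.1 = true then 0
      else q v) ≤ 2 * pG := by
    have e1 : ∑ v, (if gG (lamS lam x T L v.2) v.1 = true then 0 else q v) =
        ∑ v, (if gG (lamS lam x T L v.1) v.2 = true then 0 else q v) := by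
      have h1 := (dbl_symm p lam).ex (fun v => if gG (lamS lam x T L v.1) v.2 = true then (0 : ℝ)
        else 1)
      unfold Ex at h1
      simp only [mul_ite, mul_zero, mul_one] at h1
      exact h1
    have h2 : ∑ v, (if gG (lamS lam x T L v.1) v.2 = true ∧ gG (lamS lam x T L v.2) v.1 = true then 0
        else q v) ≤ ∑ v, ((if gG (lamS lam x T L v.1) v.2 = true then 0 else q v) +
          (if gG (lamS lam x T L v.2) v.1 = true then 0 else q v)) := by
      refine Finset.sum_le_sum fun v _ => ?_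
      have h3 := hq0 v
      by_cases c1 : gG (lamS lam x T L v.1) v.2 = true <;>
      by_cases c2 : gG (lamS lam x T L v.2) v.1 = true <;>
      simp [c1, c2, h3]
    rw [Finset.sum_add_distrib, e1] at h2
    linarith
  have hmk2 := hmk.trans (add_le_add le_rfl (le_trans (le_of_eq
    (Finset.sum_congr rfl fun v _ => ite_dec _ _ _ _ _)) hG2))
  have hdm : 2 * K * del / hm ≤ p₀ / 2 := by
    rw [div_le_iff₀ (by linarith)]
    have h1 : p₀ / 2 * hm = 2 * K * (del + 1) + p₀ / 2 := by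
      rw [hhm]
      field_simp
      ring
    rw [h1]
    have h2 : (0 : ℝ) ≤ 2 * K := by positivity
    nlinarith
  -- the rounding
  obtain ⟨y, hy1, hy2⟩ := hnr V rfl Lr (Real.log K + hm) hLr1 (by linarith) (Ω × Ω) q
    (fun v => Nz (zx (x v.1))) (fun v => Nz (zx (x v.2))) hq0 (fun v => hNzN _) (fun v => hNzN _)
  refine ⟨y, ?_, ?_⟩
  · intro M' hM'
    refine (hy1 M' hM').mono ?_
    have e1 : Cn * (Lr * (Real.log K + hm)) = Cn * Lr * (Real.log K + 1) + q₁ * (del + 1) := by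
      rw [hhm, hq₁]
      ring
    rw [e1]
    have h1 : q₁ * (del + 1) ≤ (q₁ * (2 * D) + 1) * (a + mi) + q₁ * (Cd + 1) * R := by
      have a0 : (0 : ℝ) ≤ a := Nat.cast_nonneg a
      have h2 : del + 1 ≤ 2 * D * (a + mi) + (Cd + 1) * R := by
        rw [hdel]
        have h3 : 2 * D * (a * Real.log 2) ≤ 2 * D * a := by
          have : (a : ℝ) * Real.log 2 ≤ a * 1 := mul_le_mul_of_nonneg_left hl2' a0
          have h4 : (0 : ℝ) ≤ 2 * D := by positivity
          nlinarith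
        linarith
      have h3 := mul_le_mul_of_nonneg_left h2 hq₁0
      have h4 : 0 ≤ (a : ℝ) + mi := by linarith
      linarith
    have h5 : 0 ≤ Cn * Lr * (Real.log K + 1) := by positivity
    have h6 : Cn * Lr * (Real.log K + 1) * 1 ≤ Cn * Lr * (Real.log K + 1) * R :=
      mul_le_mul_of_nonneg_left hR1 h5
    linarith
  · refine hy2.trans ?_
    have h1 : 3 * (K : ℝ) / Lr * ∑ v, q v ≤ p₀ / 2 := by
      rw [hq.sum_one, mul_one, div_le_iff₀ (by linarith)]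
      have : p₀ / 2 * Lr = 3 * K + p₀ / 2 := by
        rw [hLr]
        field_simp
        ring
      rw [this]
      linarith
    linarith


end Pool.KJA
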