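import Pool.Agent.H86.KJ.Abs
import Pool.Agent.H37.M3F.Cor

/-!
# Remez inequality on a leaf in curved natural coordinates, without fans

The leaf with the label `z` has a polynomial chart `Φ z` on the unit cube; the lines are straight
in the absolute coordinates `σ`. `gocC`: the forward budget for general test functions with a test
index which is random given the first point. `lrc_abs`: the abstract inequality. `lrc`: for
polynomials of degree at most `D` in the absolute coordinates. `lru_c`: all the polynomials at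
once, on parts of the leaf.
-/

set_option autoImplicit false

namespace Pool.KJA

open Finset Real
open Pool.Agent.H49.Ent Pool.Agent.H32.Dense Pool.STK Pool.KAF Pool.KAL Pool.KS3 Pool.M3F

/-- The forward budget for test functions with the line property. -/
lemma gocC (D : ℕ) :
    ∃ C : ℝ, 0 ≤ C ∧ ∀ (Ω Λ Ξ W Γ Z U : Type) [Fintype Ω] [Fintype W] [Fintype U]
      (p : Ω → ℝ) (lam : Ω → Λ) (x : Ω → Ξ) (T : Ξ → ℕ) (zx : Ξ → Z) (zl : Λ → Z) (M N : ℕ)
      (q : W → ℝ) (o o' : ℕ → W → Ω) (l : ℕ → W → Λ) (y : ℕ → W → Ξ) (Q : U → ℝ) (f : U → W)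
      (c : U → Γ) (ψ : Γ → Ξ → ℝ) (c₁ e₁ : ℝ), 1 ≤ M → 0 ≤ c₁ →
      (∀ ω, 0 < p ω → T (x ω) < M) → IsChain p lam x N q o o' l y →
      (∀ ω, 0 < p ω → zx (x ω) = zl (lam ω)) → IsLaw Q → Marg Q q f →
      (∀ (S : Type) (a : W → S), CI Q (fun u => a (f u)) c (fun u => y 0 (f u))) →
      (∀ u, 0 < Q u → LineP D c₁ M p lam x T (ψ (c u))) →
      Real.log M - CH p (fun ω => T (x ω)) lam ≤ e₁ →
      Ex Q (fun u => ψ (c u) (y N (f u))) ≤ Ex Q (fun u => ψ (c u) (y 0 (f u))) +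
          2 * D * ((CH Q c (fun u => zx (y 0 (f u))) - CH Q c (fun u => y 0 (f u))) +
            N * (e₁ + C)) + N * (2 * c₁) := by
  classical
  obtain ⟨C, hC, hbud⟩ := bdi_thm D
  refine ⟨C, hC, ?_⟩
  intro Ω Λ Ξ W Γ Z U _ _ _ p lam x T zx zl M N q o o' l y Q f c ψ c₁ e₁ hM hc₁ hT hch hz hQ hf
    hci hP he₁
  have hM0 : 0 < M := hM
  have hq0 := hch.isLaw.nonneg
  have hQ0 := hQ.nonneg
  have hfp : ∀ u, 0 < Q u → 0 < q (f u) := fun u hu => hf.pos hQ0 hu
  -- the label is constant along the chain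
  have hlab1 : ∀ i < N, ∀ w, 0 < q w → zx (y i w) = zl (l i w) := by
    intro i hi w hw
    have h1 := (hch.marg i hi).pos hq0 hw
    rw [← hch.start w hw i hi, ← hch.line w hw i hi]
    exact hz _ h1
  have hlab : ∀ i ≤ N, ∀ w, 0 < q w → zx (y i w) = zx (y 0 w) :=
    chain_lab hch hz
  -- the polynomial along the line
  have hex : ∀ (γ : Γ) (ll : Λ), ∃ (m : ℝ) (g : Polynomial ℝ),
      LineP D c₁ M p lam x T (ψ γ) → g.natDegree ≤ D ∧
      (∃ s ∈ Set.Icc (0 : ℝ) 1, Real.exp m ≤ |g.eval s|) ∧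
      ∀ ω, 0 < p ω → lam ω = ll →
        |g.eval ((T (x ω) : ℝ) / M)| ≤ Real.exp (ψ γ (x ω) + c₁) ∧
        m - D * Real.log M ≤ ψ γ (x ω) + c₁ ∧ ψ γ (x ω) ≤ m + c₁ := by
    intro γ ll
    by_cases h : LineP D c₁ M p lam x T (ψ γ)
    · obtain ⟨m, g, hg⟩ := h ll
      exact ⟨m, g, fun _ => hg⟩
    · exact ⟨0, 0, fun h1 => absurd h1 h⟩
  choose mm gg hmg' using hex
  have hmg : ∀ (γ : Γ), LineP D c₁ M p lam x T (ψ γ) → ∀ ll : Λ, (gg γ ll).natDegree ≤ D ∧
      (∃ s ∈ Set.Icc (0 : ℝ) 1, Real.exp (mm γ ll) ≤ |(gg γ ll).eval s|) ∧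
      ∀ ω, 0 < p ω → lam ω = ll →
        |(gg γ ll).eval ((T (x ω) : ℝ) / M)| ≤ Real.exp (ψ γ (x ω) + c₁) ∧
        mm γ ll - D * Real.log M ≤ ψ γ (x ω) + c₁ ∧ ψ γ (x ω) ≤ mm γ ll + c₁ :=
    fun γ h ll => hmg' γ ll h
  have key := hbud U Ξ Λ Γ Z Unit Q M N (fun i u => y i (f u)) (fun i u => l i (f u)) c
    (fun u => zx (y 0 (f u))) (fun ξ => T ξ % M) ψ mm (fun b ll _ => gg b ll) c₁ e₁
    hQ
    (fun i _ w => Nat.mod_lt _ hM0)
    (by
      intro i hi u hu
      have h3 := hmg (c u) (hP u hu) (l i (f u))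
      refine ⟨(), h3.1, h3.2.1, ?_⟩
      intro u' hu' hb hl
      have hw' := hfp u' hu'
      have h5 : T (y i (f u')) % M = T (y i (f u')) := by
        refine Nat.mod_eq_of_lt ?_
        rw [← hch.start _ hw' i hi]
        exact hT _ ((hch.marg i hi).pos hq0 hw')
      rw [h5]
      rw [← hb, ← hl]
      have h6 := (hmg (c u') (hP u' hu') (l i (f u'))).2.2 (o i (f u'))
        ((hch.marg i hi).pos hq0 hw') (hch.line _ hw' i hi)
      rw [hch.start _ hw' i hi] at h6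
      exact h6.1)
    (by
      intro i hi u hu
      have hw := hfp u hu
      have h3 := (hmg (c u) (hP u hu) (l i (f u))).2.2 (o i (f u))
        ((hch.marg i hi).pos hq0 hw) (hch.line _ hw i hi)
      rw [hch.start _ hw i hi] at h3
      exact h3.2.1)
    (by
      intro i hi u hu
      have hw := hfp u hu
      have h3 := (hmg (c u) (hP u hu) (l i (f u))).2.2 (o' i (f u))
        ((hch.marg' i hi).pos hq0 hw) (hch.line' _ hw i hi)
      rw [hch.stop _ hw i hi] at h3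
      exact h3.2.2)
    (by
      intro i hi
      have h1 : CI q (y 0) (l i) (y i) := by
        refine CI_of_le hq0 ?_
        rw [← hch.ci1 i hi]
        refine CH_mono_cond hq0 ?_
        intro ω ω' _ _ h
        simp only [Prod.mk.injEq] at h ⊢
        tauto
      have h2 : CI Q (fun u => y 0 (f u)) (fun u => l i (f u)) (fun u => y i (f u)) := h1.marg hf
      have h3 : CI Q c (fun u => l i (f u)) (fun u => y i (f u)) :=
        h2.ext hQ0 (hci _ (fun w => (y i w, l i w)))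
      have h4 : CI Q c (fun u => l i (f u)) (fun u => (y i (f u), zx (y 0 (f u)))) :=
        h3.congr hQ0 (by
        intro u u' a b h
        have e1 : y i (f u) = y i (f u') := h
        exact Prod.ext e1 (by
          change zx (y 0 (f u)) = zx (y 0 (f u'))
          rw [← hlab i hi.le _ (hfp u a), ← hlab i hi.le _ (hfp u' b), e1])) (by
        intro ω ω' _ _ h
        exact (Prod.ext_iff.mp h).1)
      unfold CI at h4
      rw [← h4]
      refine CH_congr hQ0 (fun _ _ _ _ h => (Prod.ext_iff.mp h).1)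
        (fun _ _ _ _ h => (Prod.ext_iff.mp h).1) ?_ ?_ <;>
      · intro ω ω' _ _ h
        simp only [Prod.mk.injEq] at h ⊢
        tauto)
    (by
      intro i hi
      have h1 : CI q (y 0) (y (i + 1)) (l i) := by
        refine CI_of_le hq0 ?_
        rw [← hch.ci2 i hi]
        refine CH_mono_cond hq0 ?_
        intro ω ω' _ _ h
        simp only [Prod.mk.injEq] at h ⊢
        tauto
      have h2 : CI Q (fun u => y 0 (f u)) (fun u => y (i + 1) (f u)) (fun u => l i (f u)) :=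
        h1.marg hf
      have h3 : CI Q c (fun u => y (i + 1) (f u)) (fun u => l i (f u)) :=
        h2.ext hQ0 (hci _ (fun w => (l i w, y (i + 1) w)))
      have h4 : CI Q c (fun u => y (i + 1) (f u)) (fun u => (l i (f u), zx (y 0 (f u)))) :=
        h3.congr hQ0 (by
        intro u u' a b h
        have e1 : l i (f u) = l i (f u') := h
        exact Prod.ext e1 (by
          change zx (y 0 (f u)) = zx (y 0 (f u'))
          rw [← hlab i hi.le _ (hfp u a), ← hlab i hi.le _ (hfp u' b),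
            hlab1 i hi _ (hfp u a), hlab1 i hi _ (hfp u' b), e1])) (by
        intro ω ω' _ _ h
        exact (Prod.ext_iff.mp h).1)
      unfold CI at h4
      rw [← h4]
      refine CH_congr hQ0 (fun _ _ _ _ h => (Prod.ext_iff.mp h).1)
        (fun _ _ _ _ h => (Prod.ext_iff.mp h).1) ?_ ?_ <;>
      · intro ω ω' _ _ h
        simp only [Prod.mk.injEq] at h ⊢
        tauto)
    (by
      intro i hi
      have h1 : CH q (fun w => T (y i w) % M) (fun w => (l i w, zx (y 0 w))) =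
          CH p (fun ω => T (x ω)) lam := by
        rw [← (hch.marg i hi).CH (fun ω => T (x ω)) lam]
        have e1 : ∀ w, 0 < q w → T (y i w) % M = T (x (o i w)) := by
          intro w hw
          rw [hch.start w hw i hi]
          refine Nat.mod_eq_of_lt ?_
          rw [← hch.start w hw i hi]
          exact hT _ ((hch.marg i hi).pos hq0 hw)
        refine CH_congr hq0 ?_ ?_ ?_ ?_
        · intro ω ω' a b h
          have := (Prod.ext_iff.mp h).1
          simp only at this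
          rw [e1 ω a, e1 ω' b] at this
          exact this
        · intro ω ω' a b h
          have := (Prod.ext_iff.mp h).1
          simp only at this ⊢
          rw [e1 ω a, e1 ω' b]
          exact this
        · intro ω ω' a b h
          have := (Prod.ext_iff.mp h).1
          simp only at this ⊢
          rw [hch.line ω a i hi, hch.line ω' b i hi]
          exact this
        · intro ω ω' a b h
          have h' : lam (o i ω) = lam (o i ω') := h
          rw [hch.line ω a i hi, hch.line ω' b i hi] at h'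
          exact Prod.ext h' (by
            change zx (y 0 ω) = zx (y 0 ω')
            rw [← hlab i hi.le _ a, ← hlab i hi.le _ b, hlab1 i hi _ a, hlab1 i hi _ b, h'])
      have h2 : CH Q (fun u => T (y i (f u)) % M) (fun u => (l i (f u), zx (y 0 (f u)))) =
          CH q (fun w => T (y i w) % M) (fun w => (l i w, zx (y 0 w))) :=
        hf.CH (fun w => T (y i w) % M) (fun w => (l i w, zx (y 0 w)))
      rw [h2, h1]
      exact he₁)
  refine key.trans ?_
  have h1 : CH Q c (fun u => (y 0 (f u), zx (y 0 (f u)))) = CH Q c (fun u => y 0 (f u)) := by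
    refine CH_congr hQ0 (fun _ _ _ _ h => (Prod.ext_iff.mp h).1)
      (fun _ _ _ _ h => (Prod.ext_iff.mp h).1) ?_ ?_
    · intro u u' _ _ h
      exact (Prod.ext_iff.mp h).1
    · intro u u' _ _ h
      have e1 : y 0 (f u) = y 0 (f u') := h
      exact Prod.ext e1 (congrArg zx e1)
  rw [h1]

/-- **Mixing**, general positions: one walk of `N` steps; the position of the last point in its
leaf (of logarithmic size `cap`) is full given the first point. -/
def MxC {Ω Λ Ξ Y : Type} [Fintype Ω] (N : ℕ) (μ : ℝ) (p : Ω → ℝ) (lam : Ω → Λ)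
    (x : Ω → Ξ) (cap : Ξ → ℝ) (Yb : Ξ → Y) : Prop :=
  ∃ (W : Type) (_ : Fintype W) (q : W → ℝ) (o o' : ℕ → W → Ω) (l : ℕ → W → Λ) (y : ℕ → W → Ξ),
    IsChain p lam x N q o o' l y ∧
      Ex p (fun ω => cap (x ω)) - CH q (fun w => Yb (y N w)) (y 0) ≤ μ

/-- Fullness from mixing. -/
theorem MxC.ful {Ω Λ Ξ Y Z : Type} [Fintype Ω] {N : ℕ} {μ : ℝ} {p : Ω → ℝ} {lam : Ω → Λ}
    {x : Ω → Ξ} {cap : Ξ → ℝ} {Yb : Ξ → Y} (h : MxC N μ p lam x cap Yb) {zx : Ξ → Z} {zl : Λ → Z}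
    (hz : ∀ ω, 0 < p ω → zx (x ω) = zl (lam ω)) :
    Ex p (fun ω => cap (x ω)) - CH p (fun ω => Yb (x ω)) (fun ω => zx (x ω)) ≤ μ := by
  obtain ⟨W, iW, q, o, o', l, y, hch, hm⟩ := h
  have hq0 := hch.isLaw.nonneg
  have h1 : CH q (fun w => Yb (y N w)) (y 0) ≤
      CH q (fun w => Yb (y N w)) (fun w => zx (y N w)) := by
    refine CH_mono_cond hq0 ?_
    intro w w' a b hh
    have h2 : y 0 w = y 0 w' := hh
    change zx (y N w) = zx (y N w')
    rw [chain_lab hch hz N le_rfl w a, chain_lab hch hz N le_rfl w' b, h2]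
  have h2 : CH q (fun w => Yb (y N w)) (fun w => zx (y N w)) =
      CH p (fun ω => Yb (x ω)) (fun ω => zx (x ω)) := CH_eq_of_law (hch.cell N le_rfl) Yb zx
  linarith

/-- **The abstract Remez inequality.** -/
theorem lrc_abs (D : ℕ) : ∃ C : ℝ, 0 ≤ C ∧
    ∀ (Ω Λ Ξ Z V Γ Y : Type) [Fintype Ω] [Fintype V] (p : Ω → ℝ) (lam : Ω → Λ) (x : Ω → Ξ)
      (T : Ξ → ℕ) (zx : Ξ → Z) (zl : Λ → Z) (M N : ℕ) (Yb : Ξ → Y) (ψ : Γ → Ξ → ℝ)
      (adm : Γ → Z → ℝ → Prop) (κ : ℝ) (cap : Z → ℝ) (Cf c₁ μ e₁ : ℝ)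
      (r : V → ℝ) (X : V → Ξ) (c : V → Γ) (S : Γ → Z → ℝ),
      1 ≤ M → 0 ≤ c₁ → 0 ≤ κ → IsLaw p → (∀ ω, 0 < p ω → T (x ω) < M) →
      (∀ ω, 0 < p ω → zx (x ω) = zl (lam ω)) →
      MxC N μ p lam x (fun ξ => cap (zx ξ)) Yb →
      FillP p x zx Yb ψ adm κ cap Cf →
      Real.log M - CH p (fun ω => T (x ω)) lam ≤ e₁ →
      IsLaw r → (∀ ξ, law r X ξ = law p x ξ) →
      (∀ v, 0 < r v → LineP D c₁ M p lam x T (ψ (c v))) →
      (∀ v, 0 < r v → adm (c v) (zx (X v)) (S (c v) (zx (X v)))) →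
      Ex r (fun v => S (c v) (zx (X v))) ≤ Ex r (fun v => ψ (c v) (X v)) +
          2 * D * (CH r c (fun v => zx (X v)) - CH r c X) +
          (N * (2 * D * (e₁ + C) + 2 * c₁) + κ * (μ + Cf)) := by
  classical
  obtain ⟨C, hC, hgo⟩ := gocC D
  refine ⟨C, hC, ?_⟩
  intro Ω Λ Ξ Z V Γ Y _ _ p lam x T zx zl M N Yb ψ adm κ cap Cf c₁ μ e₁ r X c S hM hc₁ hκ hp hT
    hz hmx hfil he₁ hr hX hP hS
  have hp0 := hp.nonneg
  have hr0 := hr.nonneg
  obtain ⟨W, iW, q, o, o', l, y, hch, hmix⟩ := hmx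
  have hq := hch.isLaw
  have hq0 := hq.nonneg
  -- gluing the chain with the random point
  have hZ : ∀ ξ, law q (y 0) ξ = law r X ξ := fun ξ => by
    rw [hch.cell 0 (Nat.zero_le _) ξ, hX ξ]
  set Q : W × V → ℝ := glue q r (y 0) X with hQdef
  have hQ0 : ∀ u, 0 ≤ Q u := glue_nonneg hq0 hr0
  have m1 : Marg Q q (fun u => u.1) := marg_fst hq0 hZ
  have m2 : Marg Q r (fun u => u.2) := marg_snd hr0 hZ
  have hQ : IsLaw Q := ⟨hQ0, by rw [m1.sum]; exact hq.sum_one⟩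
  have hyX : ∀ u, 0 < Q u → y 0 u.1 = X u.2 := fun u hu =>
    ((glue_pos_iff hq0 hr0 u).mp hu).2.2
  have hup1 : ∀ u, 0 < Q u → 0 < q u.1 := fun u hu => m1.pos hQ0 hu
  have hup2 : ∀ u, 0 < Q u → 0 < r u.2 := fun u hu => m2.pos hQ0 hu
  have hci : ∀ (S' Γ' : Type) (a : W → S') (b : V → Γ'),
      CI Q (fun u => a u.1) (fun u => b u.2) (fun u => y 0 u.1) :=
    fun S' Γ' a b => CI_glue hq0 hr0 hZ a b
  have hlab : ∀ i ≤ N, ∀ w, 0 < q w → zx (y i w) = zx (y 0 w) := chain_lab hch hz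
  have hsup : ∀ i ≤ N, ∀ w, 0 < q w → ∃ ω, 0 < p ω ∧ x ω = y i w :=
    fun i hi w hw => supp_of_law (hch.cell i hi) hq0 hw
  -- forward
  have E1 := hgo Ω Λ Ξ W Γ Z (W × V) p lam x T zx zl M N q o o' l y Q (fun u => u.1)
    (fun u => c u.2) ψ c₁ e₁ hM hc₁ hT hch hz hQ m1
    (fun S' a => hci S' Γ a c) (fun u hu => hP u.2 (hup2 u hu)) he₁
  -- the mutual information
  have hMI1 : CH Q (fun u => c u.2) (fun u => zx (y 0 u.1)) = CH r c (fun v => zx (X v)) := by
    rw [← m2.CH c (fun v => zx (X v))]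
    refine CH_congr hQ0 (fun _ _ _ _ h => (Prod.ext_iff.mp h).1)
      (fun _ _ _ _ h => (Prod.ext_iff.mp h).1) ?_ ?_
    · intro u u' a b h
      simp only at h ⊢
      rw [← hyX u a, ← hyX u' b]
      exact h
    · intro u u' a b h
      simp only at h ⊢
      rw [hyX u a, hyX u' b]
      exact h
  have hMI2 : CH Q (fun u => c u.2) (fun u => y 0 u.1) = CH r c X := by
    rw [← m2.CH c X]
    refine CH_congr hQ0 (fun _ _ _ _ h => (Prod.ext_iff.mp h).1)
      (fun _ _ _ _ h => (Prod.ext_iff.mp h).1) ?_ ?_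
    · intro u u' a b h
      simp only at h ⊢
      rw [← hyX u a, ← hyX u' b]
      exact h
    · intro u u' a b h
      simp only at h ⊢
      rw [hyX u a, hyX u' b]
      exact h
  -- start
  have E0 : Ex Q (fun u => ψ (c u.2) (y 0 u.1)) = Ex r (fun v => ψ (c v) (X v)) := by
    rw [← m2.ex (fun v => ψ (c v) (X v))]
    unfold Ex
    refine Finset.sum_congr rfl fun u _ => ?_
    by_cases hu : 0 < Q u
    · simp only
      rw [hyX u hu]
    · have : Q u = 0 := le_antisymm (not_lt.mp hu) (hQ0 u)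
      rw [this, zero_mul, zero_mul]
  -- filling
  have F1 := hfil (W × V) Q (fun u => y N u.1) (fun u => c u.2) S hQ
    (fun u hu => hsup N le_rfl u.1 (hup1 u hu))
    (by
      intro u hu
      have h1 := hS u.2 (hup2 u hu)
      change adm (c u.2) (zx (y N u.1)) (S (c u.2) (zx (y N u.1)))
      rw [hlab N le_rfl _ (hup1 u hu), hyX u hu]
      exact h1)
  have F2 : Ex Q (fun u => S (c u.2) (zx (y N u.1))) = Ex r (fun v => S (c v) (zx (X v))) := by
    rw [← m2.ex (fun v => S (c v) (zx (X v)))]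
    unfold Ex
    refine Finset.sum_congr rfl fun u _ => ?_
    by_cases hu : 0 < Q u
    · simp only
      rw [hlab N le_rfl _ (hup1 u hu), hyX u hu]
    · have : Q u = 0 := le_antisymm (not_lt.mp hu) (hQ0 u)
      rw [this, zero_mul, zero_mul]
  have F3 : Ex Q (fun u => cap (zx (y N u.1))) = Ex p (fun ω => cap (zx (x ω))) := by
    rw [show (fun u : W × V => cap (zx (y N u.1))) = fun u => (fun w => cap (zx (y N w))) u.1
      from rfl, m1.ex (fun w => cap (zx (y N w)))]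
    exact ex_of_law (hch.cell N le_rfl) (fun ξ => cap (zx ξ))
  -- the deficit
  have F4 : CH q (fun w => Yb (y N w)) (y 0) ≤
      CH Q (fun u => Yb (y N u.1)) (fun u => (c u.2, zx (y N u.1))) := by
    have a1 : CH Q (fun u => Yb (y N u.1)) (fun u => (c u.2, y 0 u.1)) =
        CH Q (fun u => Yb (y N u.1)) (fun u => y 0 u.1) :=
      hci _ Γ (fun w => Yb (y N w)) c
    have a2 : CH Q (fun u => Yb (y N u.1)) (fun u => y 0 u.1) =
        CH q (fun w => Yb (y N w)) (y 0) := m1.CH (fun w => Yb (y N w)) (y 0)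
    have a6 : CH Q (fun u => Yb (y N u.1)) (fun u => (c u.2, y 0 u.1)) ≤
        CH Q (fun u => Yb (y N u.1)) (fun u => (c u.2, zx (y N u.1))) := by
      refine CH_mono_cond hQ0 ?_
      intro u u' hu hu' h
      have e1 := (Prod.ext_iff.mp h).1
      have e2 := (Prod.ext_iff.mp h).2
      simp only at e1 e2
      refine Prod.ext e1 ?_
      simp only
      rw [hlab N le_rfl _ (hup1 u hu), hlab N le_rfl _ (hup1 u' hu'), e2]
    rw [← a2, ← a1]
    exact a6

  rw [F2, F3] at F1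
  rw [hMI1, hMI2, E0] at E1
  have G1 : κ * ((Ex p (fun ω => cap (zx (x ω))) -
      CH Q (fun u => Yb (y N u.1)) (fun u => (c u.2, zx (y N u.1)))) + Cf) ≤ κ * (μ + Cf) := by
    refine mul_le_mul_of_nonneg_left ?_ hκ
    linarith
  have G2 : 2 * D * (CH r c (fun v => zx (X v)) - CH r c X + N * (e₁ + C)) + N * (2 * c₁) =
      2 * D * (CH r c (fun v => zx (X v)) - CH r c X) + N * (2 * D * (e₁ + C) + 2 * c₁) := by
    ring
  linarith

/-- A law on incidences in a family of leaves with polynomial charts. The point `ξ` has the time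
`T ξ / M` and the position `z ξ` in the absolute coordinates `σ`; the line `l` is `t ↦ A l + t B l`;
the label `zx ξ` of the leaf is a function of the point and of the line; the leaf with the label
`ζ` is the chart `Φ ζ` of the unit cube, with `Ng ζ i` steps in the direction `i`, and `Yb ξ` is the
position of the point on the grid of its leaf. -/
structure CLeaf {σ Ω Λ Ξ Z : Type} [Fintype Ω] {d : ℕ} (k₀ : ℕ) (C₀ : ℝ) (M : ℕ) (p : Ω → ℝ)
    (lam : Ω → Λ) (x : Ω → Ξ) (T : Ξ → ℕ) (z : Ξ → σ → ℝ) (A B : Λ → σ → ℝ) (zx : Ξ → Z)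
    (zl : Λ → Z) (Yb : Ξ → Fin d → ℕ) (Ng : Z → Fin d → ℕ) (Φ : Z → σ → MvPolynomial (Fin d) ℝ) :
    Prop where
  inc : Inc M C₀ p lam x T z A B
  lab : ∀ ω, 0 < p ω → zx (x ω) = zl (lam ω)
  chart : ∀ ω, 0 < p ω → ChartOK k₀ C₀ M (Ng (zx (x ω))) (Φ (zx (x ω)))
  lt : ∀ ω, 0 < p ω → ∀ i, Yb (x ω) i < Ng (zx (x ω)) i
  near : ∀ ω, 0 < p ω → ∀ o, |z (x ω) o - cpt (Φ (zx (x ω)))
    (gpos (Ng (zx (x ω))) (Yb (x ω))) o| ≤ C₀ / M

/-- **Remez inequality on a leaf with a chart.** `P (c v)` are polynomials of degree at most `D` in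
the absolute coordinates, `S (c v) ζ` any number below the logarithm of the jet size of `P (c v)`
somewhere near the chart of the leaf `ζ`. The price is `2 D` times the mutual information of the
polynomial and the point given the leaf. -/
theorem lrc (σ : Type) [Fintype σ] (d D k₀ : ℕ) : ∃ C : ℝ, 1 ≤ C ∧
    ∀ (C₀ : ℝ) (Ω Λ Ξ Z V Γ : Type) [Fintype Ω] [Fintype V] (p : Ω → ℝ) (lam : Ω → Λ)
      (x : Ω → Ξ) (T : Ξ → ℕ) (z : Ξ → σ → ℝ) (A B : Λ → σ → ℝ) (zx : Ξ → Z) (zl : Λ → Z)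
      (Yb : Ξ → Fin d → ℕ) (Ng : Z → Fin d → ℕ) (Φ : Z → σ → MvPolynomial (Fin d) ℝ)
      (M N : ℕ) (μ e₁ : ℝ) (r : V → ℝ) (X : V → Ξ) (c : V → Γ)
      (P : Γ → MvPolynomial σ ℝ) (S : Γ → Z → ℝ),
      1 ≤ C₀ → 1 ≤ M → CLeaf k₀ C₀ M p lam x T z A B zx zl Yb Ng Φ →
      MxC N μ p lam x (fun ξ => ∑ i, Real.log (Ng (zx ξ) i)) Yb → 0 ≤ μ →
      Real.log M - CH p (fun ω => T (x ω)) lam ≤ e₁ → 0 ≤ e₁ →
      IsLaw r → (∀ ξ, law r X ξ = law p x ξ) →
      (∀ v, 0 < r v → admC D (C₀ / M) Φ P (c v) (zx (X v)) (S (c v) (zx (X v)))) →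
      Ex r (fun v => S (c v) (zx (X v))) ≤
        Ex r (fun v => Real.log (Psi (P (c v)) (C₀ / M) (z (X v)))) +
          2 * D * (CH r c (fun v => zx (X v)) - CH r c X) +
          C * ((N + 1) * (e₁ + 1) + μ) := by
  classical
  obtain ⟨Cf, hCf, hfil⟩ := fil_chart (rik_thm rmg_thm gvi_thm) σ d D k₀
  obtain ⟨c₁, hc₁, hlin⟩ := lineC σ D
  obtain ⟨Ca, hCa, habs⟩ := lrc_abs D
  set κ : ℕ := (2 * k₀ + 1) * D + 1 with hκ
  have hκ0 : (0 : ℝ) ≤ κ := Nat.cast_nonneg κ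
  have hD0 : (0 : ℝ) ≤ D := Nat.cast_nonneg D
  refine ⟨1 + (2 * D * (1 + Ca) + 2 * c₁ + κ * (1 + Cf)), ?_, ?_⟩
  · have : 0 ≤ 2 * D * (1 + Ca) + 2 * c₁ + κ * (1 + Cf) := by positivity
    linarith
  intro C₀ Ω Λ Ξ Z V Γ _ _ p lam x T z A B zx zl Yb Ng Φ M N μ e₁ r X c P S hC₀ hM hL hmx hμ he₁
    he₁0 hr hX hadm
  have hp := hL.inc.isLaw
  have hM0 : (0 : ℝ) < M := by exact_mod_cast hM
  -- the support
  have hsupX : ∀ v, 0 < r v → ∃ ω, 0 < p ω ∧ x ω = X v := fun v hv =>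
    supp_of_law (fun ξ => hX ξ) hr.nonneg hv
  have hfl := hfil C₀ Ω Ξ Γ Z p x M zx Ng Φ Yb z P hC₀ hM hL.chart hL.lt hL.near
  have hline : ∀ v, 0 < r v →
      LineP D c₁ M p lam x T (fun ξ => Real.log (Psi (P (c v)) (C₀ / M) (z ξ))) := by
    intro v hv l
    obtain ⟨hP0, hPD, -⟩ := hadm v hv
    by_cases hl : ∃ ω, 0 < p ω ∧ lam ω = l
    · obtain ⟨ω₀, hω₀, hl₀⟩ := hl
      obtain ⟨m, g, hg1, hg2, hg3⟩ := hlin C₀ M (P (c v)) (A l) (B l) hC₀ hM hP0 hPD
        (fun i => by rw [← hl₀]; exact hL.inc.B_le ω₀ hω₀ i)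
      refine ⟨m, g, hg1, hg2, ?_⟩
      intro ω hω hlam
      refine hg3 _ ⟨by positivity, ?_⟩ (z (x ω)) ?_
      · rw [div_le_one hM0]
        exact_mod_cast (hL.inc.T_lt ω hω).le
      · intro i
        have := hL.inc.near ω hω i
        rw [hlam] at this
        exact this
    · refine ⟨0, 1, ?_, ⟨0, by simp, ?_⟩, ?_⟩
      · rw [Polynomial.natDegree_one]
        exact Nat.zero_le _
      · rw [Polynomial.eval_one, abs_one, Real.exp_zero]
      · intro ω hω hlam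
        exact absurd ⟨ω, hω, hlam⟩ hl
  have H := habs Ω Λ Ξ Z V Γ (Fin d → ℕ) p lam x T zx zl M N Yb
    (fun γ ξ => Real.log (Psi (P γ) (C₀ / M) (z ξ))) (admC D (C₀ / M) Φ P) κ
    (fun ζ => ∑ i, Real.log (Ng ζ i)) Cf c₁ μ e₁ r X c S hM hc₁ hκ0 hp hL.inc.T_lt hL.lab hmx hfl
    he₁ hr hX hline hadm
  refine H.trans ?_
  have hN : (0 : ℝ) ≤ N := Nat.cast_nonneg N
  have h1 : N * (2 * D * (e₁ + Ca) + 2 * c₁) ≤
      (2 * D * (1 + Ca) + 2 * c₁) * ((N + 1) * (e₁ + 1) + μ) := by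
    have a1 : 2 * D * (e₁ + Ca) + 2 * c₁ ≤ (2 * D * (1 + Ca) + 2 * c₁) * (e₁ + 1) := by
      have b1 : (2 * D * (1 + Ca) + 2 * c₁) * (e₁ + 1) = 2 * D * (e₁ + Ca) + 2 * c₁ +
        (2 * D * (1 + Ca * e₁) + 2 * c₁ * e₁) := by ring
      have b2 : 0 ≤ 2 * D * (1 + Ca * e₁) + 2 * c₁ * e₁ := by positivity
      linarith
    have a2 := mul_le_mul_of_nonneg_left a1 hN
    have a3 : (2 * D * (1 + Ca) + 2 * c₁) * ((N + 1) * (e₁ + 1) + μ) =
        N * ((2 * D * (1 + Ca) + 2 * c₁) * (e₁ + 1)) +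
          (2 * D * (1 + Ca) + 2 * c₁) * (e₁ + 1 + μ) := by ring
    have a4 : 0 ≤ (2 * D * (1 + Ca) + 2 * c₁) * (e₁ + 1 + μ) := by positivity
    linarith
  have h2 : κ * (μ + Cf) ≤ κ * (1 + Cf) * ((N + 1) * (e₁ + 1) + μ) := by
    have a1 : μ + Cf ≤ (1 + Cf) * ((N + 1) * (e₁ + 1) + μ) := by
      have b1 : (1 + Cf) * ((N + 1) * (e₁ + 1) + μ) = μ + Cf + (Cf * (N * (e₁ + 1) + e₁ + μ) +
        (N + 1) * (e₁ + 1)) := by ring
      have b2 : 0 ≤ Cf * (N * (e₁ + 1) + e₁ + μ) + (N + 1) * (e₁ + 1) := by positivity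
      linarith
    have a2 := mul_le_mul_of_nonneg_left a1 hκ0
    linarith
  have h3 : 0 ≤ (N + 1) * (e₁ + 1) + μ := by positivity
  have h4 : (1 + (2 * D * (1 + Ca) + 2 * c₁ + κ * (1 + Cf))) * ((N + 1) * (e₁ + 1) + μ) =
      ((N + 1) * (e₁ + 1) + μ) + (2 * D * (1 + Ca) + 2 * c₁) * ((N + 1) * (e₁ + 1) + μ) +
        κ * (1 + Cf) * ((N + 1) * (e₁ + 1) + μ) := by ring
  rw [h4]
  linarith

/-- **All the polynomials at once, on parts of the leaf.** `zw` is any refinement of the label of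
the leaf (for instance the leaf and a natural small cube). Outside a set of small probability, the
size of every polynomial of degree at most `D` at any point of the chart of the leaf is at most
`exp h` times its size at some point of the support in the part of the point. -/
theorem lru_c (σ : Type) [Fintype σ] (d D k₀ : ℕ) : ∃ C : ℝ, 1 ≤ C ∧
    ∀ (C₀ : ℝ) (Ω Λ Ξ Z W : Type) [Fintype Ω] (p : Ω → ℝ) (lam : Ω → Λ)
      (x : Ω → Ξ) (T : Ξ → ℕ) (z : Ξ → σ → ℝ) (A B : Λ → σ → ℝ) (zx : Ξ → Z) (zl : Λ → Z)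
      (Yb : Ξ → Fin d → ℕ) (Ng : Z → Fin d → ℕ) (Φ : Z → σ → MvPolynomial (Fin d) ℝ)
      (M N : ℕ) (μ e₁ h : ℝ) (zw : Ξ → W),
      1 ≤ C₀ → 1 ≤ M → CLeaf k₀ C₀ M p lam x T z A B zx zl Yb Ng Φ →
      MxC N μ p lam x (fun ξ => ∑ i, Real.log (Ng (zx ξ) i)) Yb → 0 ≤ μ →
      Real.log M - CH p (fun ω => T (x ω)) lam ≤ e₁ → 0 ≤ e₁ → 0 < h →
      (∑ ω, (open Classical in
        if ∃ (F : MvPolynomial σ ℝ) (u : Fin d → ℝ), F ≠ 0 ∧ F.totalDegree ≤ D ∧ u ∈ ucube d ∧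
          ∀ ω', 0 < p ω' → zx (x ω') = zx (x ω) → zw (x ω') = zw (x ω) →
            Real.exp h * Psi F (C₀ / M) (z (x ω')) < Psi F (C₀ / M) (cpt (Φ (zx (x ω))) u)
        then p ω else 0)) ≤
        (2 * D * CH p (fun ω => zw (x ω)) (fun ω => zx (x ω)) +
          C * ((N + 1) * (e₁ + 1) + μ)) / h := by
  classical
  obtain ⟨C, hC, H⟩ := lrc σ d D k₀
  refine ⟨C, hC, ?_⟩
  intro C₀ Ω Λ Ξ Z W _ p lam x T z A B zx zl Yb Ng Φ M N μ e₁ h zw hC₀ hM hL hmx hμ he₁ he₁0 hh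
  have hp := hL.inc.isLaw
  have hp0 := hp.nonneg
  have hM0 : (0 : ℝ) < M := by exact_mod_cast hM
  set h₀ : ℝ := C₀ / M with hh₀
  have hh₀0 : 0 < h₀ := by positivity
  -- the bad labels
  set bad : Z × W → MvPolynomial σ ℝ × (Fin d → ℝ) → Prop := fun g F =>
    F.1 ≠ 0 ∧ F.1.totalDegree ≤ D ∧ F.2 ∈ ucube d ∧
    ∀ ω', 0 < p ω' → zx (x ω') = g.1 → zw (x ω') = g.2 →
      Real.exp h * Psi F.1 h₀ (z (x ω')) < Psi F.1 h₀ (cpt (Φ g.1) F.2) with hbad
  set Fc : Z × W → MvPolynomial σ ℝ × (Fin d → ℝ) := fun g =>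
    if hg : ∃ F, bad g F then hg.choose else (1, fun _ => 0) with hFc
  have hF1 : ∀ g, (Fc g).1 ≠ 0 ∧ (Fc g).1.totalDegree ≤ D ∧ (Fc g).2 ∈ ucube d := by
    intro g
    simp only [hFc]
    split_ifs with hg
    · exact ⟨hg.choose_spec.1, hg.choose_spec.2.1, hg.choose_spec.2.2.1⟩
    · refine ⟨one_ne_zero, ?_, ?_⟩
      · rw [MvPolynomial.totalDegree_one]
        exact Nat.zero_le _
      · intro i
        simp
  have h1 := H C₀ Ω Λ Ξ Z Ω (Z × W) p lam x T z A B zx zl Yb Ng Φ M N μ e₁ p x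
    (fun ω => (zx (x ω), zw (x ω))) (fun g => (Fc g).1)
    (fun g _ => Real.log (Psi (Fc g).1 h₀ (cpt (Φ g.1) (Fc g).2))) hC₀ hM hL hmx hμ he₁ he₁0 hp
    (fun _ => rfl) (by
      intro ω hω
      refine ⟨(hF1 _).1, (hF1 _).2.1, (Fc (zx (x ω), zw (x ω))).2, (hF1 _).2.2, _,
        fun o => ?_, le_rfl⟩
      rw [sub_self, abs_zero]
      exact hh₀0.le)
  have h2 : CH p (fun ω => (zx (x ω), zw (x ω))) (fun ω => zx (x ω)) =
      CH p (fun ω => zw (x ω)) (fun ω => zx (x ω)) := by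
    refine CH_congr hp0 ?_ ?_ (fun _ _ _ _ h => h) (fun _ _ _ _ h => h)
    · intro ω ω' _ _ h
      simp only [Prod.mk.injEq] at h
      exact h.1.2
    · intro ω ω' _ _ h
      simp only [Prod.mk.injEq] at h
      simp only [h.1, h.2]
  have h3 : CH p (fun ω => (zx (x ω), zw (x ω))) x = 0 := CH_eq_zero hp0 (fun ω ω' _ _ h => by
    have h4 : x ω = x ω' := h
    simp only [h4])
  rw [h2, h3, sub_zero] at h1
  have hPsi1 : ∀ y : σ → ℝ, Psi (1 : MvPolynomial σ ℝ) h₀ y = 1 := by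
    intro y
    unfold Psi shf
    rw [map_one, coefSum_one]
  have h6 : (∑ ω, if ∃ F, bad (zx (x ω), zw (x ω)) F then p ω else 0) * h ≤
      Ex p (fun ω => Real.log (Psi (Fc (zx (x ω), zw (x ω))).1 h₀
        (cpt (Φ (zx (x ω))) (Fc (zx (x ω), zw (x ω))).2)) -
        Real.log (Psi (Fc (zx (x ω), zw (x ω))).1 h₀ (z (x ω)))) := by
    rw [Finset.sum_mul]
    unfold Ex
    refine Finset.sum_le_sum fun ω _ => ?_
    by_cases hω : 0 < p ω
    · split_ifs with hg
      · refine mul_le_mul_of_nonneg_left ?_ hω.le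
        have hg1 : bad (zx (x ω), zw (x ω)) (Fc (zx (x ω), zw (x ω))) := by
          simp only [hFc]
          rw [dif_pos hg]
          exact hg.choose_spec
        have hg2 := hg1.2.2.2 ω hω rfl rfl
        have hg3 : 0 < Psi (Fc (zx (x ω), zw (x ω))).1 h₀ (z (x ω)) :=
          Psi_pos _ hg1.1 h₀ hh₀0 _
        have hg4 := Real.log_le_log (mul_pos (Real.exp_pos h) hg3) hg2.le
        rw [Real.log_mul (Real.exp_pos h).ne' hg3.ne', Real.log_exp] at hg4
        simp only at hg4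
        linarith
      · rw [zero_mul]
        refine mul_nonneg hω.le ?_
        have hg1 : Fc (zx (x ω), zw (x ω)) = (1, fun _ => 0) := by
          simp only [hFc]
          rw [dif_neg hg]
        change 0 ≤ Real.log (Psi (Fc (zx (x ω), zw (x ω))).1 h₀
          (cpt (Φ (zx (x ω))) (Fc (zx (x ω), zw (x ω))).2)) -
          Real.log (Psi (Fc (zx (x ω), zw (x ω))).1 h₀ (z (x ω)))
        rw [hg1]
        simp only
        rw [hPsi1, hPsi1, sub_self]
    · have h0 : p ω = 0 := le_antisymm (not_lt.mp hω) (hp0 ω)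
      rw [h0]
      simp
  rw [Ex_sub] at h6
  rw [le_div_iff₀ hh]
  have h7 : (∑ ω, if ∃ (F : MvPolynomial σ ℝ) (u : Fin d → ℝ), F ≠ 0 ∧ F.totalDegree ≤ D ∧
      u ∈ ucube d ∧ ∀ ω', 0 < p ω' → zx (x ω') = zx (x ω) → zw (x ω') = zw (x ω) →
        Real.exp h * Psi F h₀ (z (x ω')) < Psi F h₀ (cpt (Φ (zx (x ω))) u)
      then p ω else 0) = ∑ ω, if ∃ F, bad (zx (x ω), zw (x ω)) F then p ω else 0 := by
    refine Finset.sum_congr rfl fun ω _ => ?_
    refine if_congr ?_ rfl rfl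
    constructor
    · rintro ⟨F, u, hb⟩
      exact ⟨(F, u), hb⟩
    · rintro ⟨⟨F, u⟩, hb⟩
      exact ⟨F, u, hb⟩
  rw [h7]
  simp only at h1
  linarith

end Pool.KJA
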