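import Pool.Agent.H86.KJ.Deg
import Pool.Agent.H74.KJ.LRU

/-!
# The hypotheses of the step, without fans

`StepA` is `StepH` (H82/KSP/RND.lean) with the fans replaced by the mixing field `Mx` in the leaf
window. `lru_mx`: Remez inequality on parts of a leaf.
-/

set_option autoImplicit false

namespace Pool.KJA

open Finset Real
open Pool.Agent.H49.Ent Pool.Agent.H32.Dense Pool.STK Pool.KAF Pool.KAL Pool.KST Pool.KS3

/-- The hypotheses of the step for one passive coordinate, without fans. -/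
structure StepA (n a L : ℕ) (C₀ : ℝ) (k₀ N : ℕ) (μ e₁ e₃ : ℝ) {Ω Λ Ξ Z : Type}
    [Fintype Ω] (p : Ω → ℝ) (lam : Ω → Λ) (x : Ω → Ξ) (T : Ξ → ℕ)
    (pos : Ξ → Option (Fin n) → ℕ) (A B : Λ → Option (Fin n) → ℝ) (zx : Ξ → Z)
    (zl : Λ → ℕ → Z) (cz : Z → Option (Fin n) → ℕ) (G : Z → MvPolynomial (Fin n) ℝ) : Prop where
  step : StepF n a L C₀ p lam x T pos A B zx zl cz
  reg : ∀ ω, 0 < p ω → RegG (G (zx (x ω))) (fun _ => 0) 1 k₀ (3 * C₀)
  gr : ∀ ω, 0 < p ω → |rp (2 ^ L) (posS pos L) (x ω) none - MvPolynomial.eval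
    (fun i => rp (2 ^ L) (posS pos L) (x ω) (some i)) (G (zx (x ω)))| ≤ 3 * C₀ / 2 ^ L
  mix : Mx L N μ p (lamS lam x T L) x (posS pos L)
  hμ : 0 ≤ μ
  he₁ : L * Real.log 2 - CH p (fun ω => TS T L (x ω)) (lamS lam x T L) ≤ e₁
  he₁0 : 0 ≤ e₁
  he₃ : CH p x (fun ω => (bas pos (x ω), zx (x ω))) ≤ e₃

/-- The error of the step. -/
noncomputable def RA (N : ℕ) (e₁ e₃ μ : ℝ) : ℝ := (N + 1) * (e₁ + 1) + e₃ + μ

section

variable {n a L : ℕ} {C₀ : ℝ} {k₀ N : ℕ} {μ e₁ e₃ : ℝ} {Ω Λ Ξ Z : Type}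
    [Fintype Ω] {p : Ω → ℝ} {lam : Ω → Λ} {x : Ω → Ξ} {T : Ξ → ℕ}
    {pos : Ξ → Option (Fin n) → ℕ} {A B : Λ → Option (Fin n) → ℝ} {zx : Ξ → Z}
    {zl : Λ → ℕ → Z} {cz : Z → Option (Fin n) → ℕ} {G : Z → MvPolynomial (Fin n) ℝ}

lemma StepA.e₃_nonneg (h : StepA n a L C₀ k₀ N μ e₁ e₃ p lam x T pos A B zx zl cz G) :
    0 ≤ e₃ := (CH_nonneg h.step.leaf.isLaw.nonneg _ _).trans h.he₃

/-- The error dominates the small terms. -/
lemma StepA.le_RA (h : StepA n a L C₀ k₀ N μ e₁ e₃ p lam x T pos A B zx zl cz G) :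
    e₁ + μ + 1 ≤ RA N e₁ e₃ μ ∧ 1 ≤ RA N e₁ e₃ μ ∧ e₁ + e₃ + 1 ≤ RA N e₁ e₃ μ := by
  have he₃0 := h.e₃_nonneg
  have he₁0 := h.he₁0
  have hμ := h.hμ
  have hN : (0 : ℝ) ≤ N := Nat.cast_nonneg N
  have h8 : 0 ≤ (N : ℝ) * (e₁ + 1) := by positivity
  unfold RA
  refine ⟨?_, ?_, ?_⟩ <;> linarith

lemma StepA.lrp_le (h : StepA n a L C₀ k₀ N μ e₁ e₃ p lam x T pos A B zx zl cz G) :
    (N + 1) * (e₁ + 1) + μ ≤ RA N e₁ e₃ μ := by
  have he₃0 := h.e₃_nonneg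
  unfold RA
  linarith

/-- The base coordinates are full given the leaf. -/
lemma StepA.ful (h : StepA n a L C₀ k₀ N μ e₁ e₃ p lam x T pos A B zx zl cz G) :
    n * (L * Real.log 2) - CH p (fun ω => bas (posS pos L) (x ω)) (fun ω => zx (x ω)) ≤ μ :=
  ful_of_mx h.mix (zl := fun l => zl l.1 l.2) fun ω _ => h.step.lab ω

end

/-- Row LRU: parts given by an arbitrary refinement of the label. -/
theorem lru_mx (n D k₀ : ℕ) (C₀ : ℝ) (hC₀ : 1 ≤ C₀) : ∃ C : ℝ, 0 ≤ C ∧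
    ∀ (a L : ℕ) (Ω Λ Ξ Z W : Type) [Fintype Ω] (p : Ω → ℝ) (lam : Ω → Λ)
      (x : Ω → Ξ) (T : Ξ → ℕ) (pos : Ξ → Option (Fin n) → ℕ) (A B : Λ → Option (Fin n) → ℝ)
      (zx : Ξ → Z) (zl : Λ → ℕ → Z) (cz : Z → Option (Fin n) → ℕ)
      (G : Z → MvPolynomial (Fin n) ℝ) (N : ℕ) (μ e₁ e₃ s h : ℝ)
      (zw : Ξ → W),
      StepA n a L C₀ k₀ N μ e₁ e₃ p lam x T pos A B zx zl cz G →
      (∀ ω ω', 0 < p ω → 0 < p ω' → zw (x ω) = zw (x ω') → zx (x ω) = zx (x ω')) →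
      0 < s → s ≤ 1 → 0 < h →
      (∑ ω, (open Classical in
        if ∃ F : MvPolynomial.restrictTotalDegree (Option (Fin n)) ℝ D, F ≠ 0 ∧
          Real.exp h * NZ D p x zw (2 ^ (a + L)) pos (6 * C₀ / 2 ^ (a + L)) s (zw (x ω)) F <
          NZ D p x zx (2 ^ (a + L)) pos (6 * C₀ / 2 ^ (a + L)) s (zx (x ω)) F
        then p ω else 0)) ≤
        (2 * D * CH p (fun ω => zw (x ω)) (fun ω => zx (x ω)) +
          C * RA N e₁ e₃ μ) / h := by
  classical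
  obtain ⟨C, hC, H⟩ := lrg_mx n D k₀ C₀ hC₀
  refine ⟨C, hC, ?_⟩
  intro a L Ω Λ Ξ Z W _ p lam x T pos A B zx zl cz G N μ e₁ e₃ s h zw hF hzw hs0 hs1 hh
  have hp := hF.step.leaf.isLaw
  have hp0 := hp.nonneg
  set h₀ : ℝ := 6 * C₀ / 2 ^ (a + L) with hh₀
  have hh₀0 : 0 < h₀ := by
    have : (0 : ℝ) < C₀ := by linarith
    positivity
  set M : ℕ := 2 ^ (a + L) with hM
  set V := MvPolynomial.restrictTotalDegree (Option (Fin n)) ℝ D with hV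
  -- the bad labels
  set bad : Z × W → V → Prop := fun g F => F ≠ 0 ∧
    Real.exp h * NZ D p x zw M pos h₀ s g.2 F < NZ D p x zx M pos h₀ s g.1 F with hbad
  set Fc : Z × W → V := fun g => if hg : ∃ F : V, bad g F then hg.choose else onV _ D with hFc
  have hFcne : ∀ g, Fc g ≠ 0 := by
    intro g
    simp only [hFc]
    split_ifs with hg
    · exact hg.choose_spec.1
    · exact onV_ne_zero _ _
  have h1 := H a L Ω Λ Ξ Z Ω (Z × W) p lam x T pos A B zx zl cz G N μ e₁ s p x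
    (fun ω => (zx (x ω), zw (x ω))) Fc hF.step hF.reg hF.gr hF.mix hF.hμ
    hF.he₁ hF.he₁0 hs0 hs1 hp (fun _ => rfl) hFcne
  have h2 : CH p (fun ω => (zx (x ω), zw (x ω))) (fun ω => zx (x ω)) =
      CH p (fun ω => zw (x ω)) (fun ω => zx (x ω)) := by
    refine CH_congr hp0 ?_ ?_ (fun _ _ _ _ h => h) (fun _ _ _ _ h => h)
    · intro ω ω' _ _ h
      simp only [Prod.mk.injEq] at h
      exact h.1.2
    · intro ω ω' _ _ h
      simp only [Prod.mk.injEq] at h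
      simp only [h.1, h.2]
  have h3 : CH p (fun ω => (zx (x ω), zw (x ω))) x = 0 := CH_eq_zero hp0 (fun ω ω' _ _ h => by
    have h4 : x ω = x ω' := h
    simp only [h4])
  rw [h2, h3, sub_zero] at h1
  -- the norm of the part
  have h4 : Ex p (fun ω => Real.log (PsiC s (Fc (zx (x ω), zw (x ω)) :
      MvPolynomial (Option (Fin n)) ℝ) h₀ (rp M pos (x ω)))) ≤
      Ex p (fun ω => Real.log (NZ D p x zw M pos h₀ s (zw (x ω)) (Fc (zx (x ω), zw (x ω))))) := by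
    refine Ex_mono hp0 fun ω hω => ?_
    have hne : ((Fc (zx (x ω), zw (x ω)) : V) : MvPolynomial (Option (Fin n)) ℝ) ≠ 0 :=
      fun h0 => hFcne _ (Subtype.ext h0)
    exact Real.log_le_log (PsiC_pos hs0.ne' hne hh₀0 _) (le_NZ hs0.ne' hω _)
  -- the part is smaller
  have h5 : ∀ ω, 0 < p ω → ∀ F : V, NZ D p x zw M pos h₀ s (zw (x ω)) F ≤
      NZ D p x zx M pos h₀ s (zx (x ω)) F := by
    intro ω hω F
    obtain ⟨ω', hω', hz, he⟩ := NZ_attained (D := D) (x := x) (zx := zw) (M := M) (pos := pos)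
      (h := h₀) hs0.ne' hω F
    rw [he, ← hzw ω' ω hω' hω hz]
    exact le_NZ hs0.ne' hω' F
  have h6 : (∑ ω, if ∃ F : V, bad (zx (x ω), zw (x ω)) F then p ω else 0) * h ≤
      Ex p (fun ω => Real.log (NZ D p x zx M pos h₀ s (zx (x ω)) (Fc (zx (x ω), zw (x ω)))) -
        Real.log (NZ D p x zw M pos h₀ s (zw (x ω)) (Fc (zx (x ω), zw (x ω))))) := by
    rw [Finset.sum_mul]
    unfold Ex
    refine Finset.sum_le_sum fun ω _ => ?_
    by_cases hω : 0 < p ω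
    · have hb1 := NZ_pos (D := D) (p := p) (x := x) (zx := zw) (M := M) (pos := pos) hh₀0 hs0
        (zw (x ω)) (hFcne (zx (x ω), zw (x ω)))
      split_ifs with hg
      · refine mul_le_mul_of_nonneg_left ?_ hω.le
        have hg1 : bad (zx (x ω), zw (x ω)) (Fc (zx (x ω), zw (x ω))) := by
          simp only [hFc]
          rw [dif_pos hg]
          exact hg.choose_spec
        have hg2 := Real.log_le_log (mul_pos (Real.exp_pos h) hb1) hg1.2.le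
        rw [Real.log_mul (Real.exp_pos h).ne' hb1.ne', Real.log_exp] at hg2
        linarith
      · rw [zero_mul]
        refine mul_nonneg hω.le ?_
        have := Real.log_le_log hb1 (h5 ω hω (Fc (zx (x ω), zw (x ω))))
        linarith
    · have h0 : p ω = 0 := le_antisymm (not_lt.mp hω) (hp0 ω)
      rw [h0]
      simp
  rw [Ex_sub] at h6
  rw [le_div_iff₀ hh]
  have h7 : (∑ ω, if ∃ F : V, F ≠ 0 ∧
      Real.exp h * NZ D p x zw M pos h₀ s (zw (x ω)) F < NZ D p x zx M pos h₀ s (zx (x ω)) F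
      then p ω else 0) * h ≤ Ex p (fun ω => Real.log (NZ D p x zx M pos h₀ s (zx (x ω))
        (Fc (zx (x ω), zw (x ω))))) - Ex p (fun ω => Real.log (NZ D p x zw M pos h₀ s (zw (x ω))
        (Fc (zx (x ω), zw (x ω))))) := h6
  have h8 : C * ((N + 1) * (e₁ + 1) + μ) ≤ C * RA N e₁ e₃ μ :=
    mul_le_mul_of_nonneg_left hF.lrp_le hC
  linarith

/-- **Row J3a.** Small cubes: the price is `2 D (n + 1) u log 2`. -/
theorem lru_cube_mx (n D k₀ : ℕ) (C₀ : ℝ) (hC₀ : 1 ≤ C₀) : ∃ C : ℝ, 0 ≤ C ∧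
    ∀ (a L L' u : ℕ) (Ω Λ Ξ Z : Type) [Fintype Ω] (p : Ω → ℝ) (lam : Ω → Λ)
      (x : Ω → Ξ) (T : Ξ → ℕ) (pos : Ξ → Option (Fin n) → ℕ) (A B : Λ → Option (Fin n) → ℝ)
      (zx : Ξ → Z) (zl : Λ → ℕ → Z) (cz : Z → Option (Fin n) → ℕ)
      (G : Z → MvPolynomial (Fin n) ℝ) (N : ℕ) (μ e₁ e₃ s h : ℝ),
      StepA n a L C₀ k₀ N μ e₁ e₃ p lam x T pos A B zx zl cz G →
      u + L' = L → 0 < s → s ≤ 1 → 0 < h →
      (∑ ω, (open Classical in
        if ∃ F : MvPolynomial.restrictTotalDegree (Option (Fin n)) ℝ D, F ≠ 0 ∧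
          Real.exp h * NZ D p x (zx2 L' pos zx) (2 ^ (a + L)) pos (6 * C₀ / 2 ^ (a + L)) s
            (zx2 L' pos zx (x ω)) F <
          NZ D p x zx (2 ^ (a + L)) pos (6 * C₀ / 2 ^ (a + L)) s (zx (x ω)) F
        then p ω else 0)) ≤
        (2 * D * ((n + 1) * (u * Real.log 2)) + C * RA N e₁ e₃ μ) / h := by
  obtain ⟨C, hC, H⟩ := lru_mx n D k₀ C₀ hC₀
  refine ⟨C, hC, ?_⟩
  intro a L L' u Ω Λ Ξ Z _ p lam x T pos A B zx zl cz G N μ e₁ e₃ s h hF hL hs0 hs1 hh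
  refine (H a L Ω Λ Ξ Z (Z × (Option (Fin n) → ℕ)) p lam x T pos A B zx zl cz G N μ e₁ e₃ s
    h (zx2 L' pos zx) hF ?_ hs0 hs1 hh).trans ?_
  · intro ω ω' _ _ hz
    exact (Prod.ext_iff.mp hz).1
  · refine div_le_div_of_nonneg_right ?_ hh.le
    have h1 := CH_zx2_le hF.step hL
    have h2 : (0 : ℝ) ≤ 2 * D := by positivity
    have h3 := mul_le_mul_of_nonneg_left h1 h2
    linarith


end Pool.KJA
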