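import Pool.Agent.H86.KJ.Gmk
import Pool.Agent.H82.KSP.QDT

/-!
# The polynomials of the leaves, without fans

`qdt_mx`: row QDT (H82/KSP/QDT.lean) from the fullness of the base coordinates only.
-/

set_option autoImplicit false

namespace Pool.KJA

open Finset Real
open Pool.Agent.H49.Ent Pool.Agent.H32.Dense Pool.STK Pool.KAF Pool.KAL Pool.KST Pool.KS3

/-- Row QDT, from fullness. -/
theorem qdt_mx (n D k₀ : ℕ) (C₀ : ℝ) (hC₀ : 1 ≤ C₀) : ∃ C : ℝ, 1 ≤ C ∧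
    ∀ (a L : ℕ) (Ω Λ Ξ Z : Type) [Fintype Ω] (p : Ω → ℝ) (lam : Ω → Λ)
      (x : Ω → Ξ) (T : Ξ → ℕ) (pos : Ξ → Option (Fin n) → ℕ) (A B : Λ → Option (Fin n) → ℝ)
      (zx : Ξ → Z) (zl : Λ → ℕ → Z) (cz : Z → Option (Fin n) → ℕ)
      (G : Z → MvPolynomial (Fin n) ℝ) (μ lm : ℝ),
      StepF n a L C₀ p lam x T pos A B zx zl cz →
      (∀ ω, 0 < p ω → RegG (G (zx (x ω))) (fun _ => 0) 1 k₀ (3 * C₀)) →
      (∀ ω, 0 < p ω → |rp (2 ^ L) (posS pos L) (x ω) none - MvPolynomial.eval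
        (fun i => rp (2 ^ L) (posS pos L) (x ω) (some i)) (G (zx (x ω)))| ≤ 3 * C₀ / 2 ^ L) →
      (∀ ω, 0 < p ω → ¬ Bad (G (zx (x ω))) (fun _ => 0) 1 D lm) →
      6 * C₀ / 2 ^ L ≤ lm → lm ≤ 1 →
      n * (L * Real.log 2) - CH p (fun ω => bas (posS pos L) (x ω)) (fun ω => zx (x ω)) ≤ μ →
      0 ≤ μ →
      ∃ (Q : Z → MvPolynomial (Option (Fin n)) ℝ) (g : Z → ℝ),
        (∀ ζ, Q ζ ≠ 0 ∧ (Q ζ).totalDegree ≤ D) ∧ (∀ ζ, 0 < g ζ) ∧
        (∀ ω, 0 < p ω → PsiC (6 * C₀ / 2 ^ L / lm) (Q (zx (x ω))) (6 * C₀ / 2 ^ (a + L))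
          (rp (2 ^ (a + L)) pos (x ω)) ≤ C * lm * g (zx (x ω))) ∧
        (∀ ω, 0 < p ω → MvPolynomial.pderiv none (Q (zx (x ω))) ≠ 0) ∧
        Ex p (fun ω => Real.log (g (zx (x ω)))) ≤
          Ex p (fun ω => Real.log (1 / 2 ^ a * Psi (MvPolynomial.pderiv none (Q (zx (x ω))))
            (6 * C₀ / 2 ^ (a + L)) (rp (2 ^ (a + L)) pos (x ω)))) +
          C * (μ + 1) := by
  classical
  have h3C : (1 : ℝ) ≤ 3 * C₀ := by linarith
  have hn0 : (0 : ℝ) ≤ n := Nat.cast_nonneg n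
  set C₅ : ℝ := (3 * n + 6) * C₀ with hC₅
  have h5C : 6 * C₀ ≤ C₅ := by
    rw [hC₅]
    nlinarith
  have h5C1 : 1 ≤ C₅ := by linarith
  obtain ⟨Cq, hCq, hgdq⟩ := gdq_thm n D k₀ (3 * C₀) h3C
  obtain ⟨κ', Cf, hCf, hfil⟩ := fil n D k₀ C₅ h5C1
  have hκ' : (0 : ℝ) ≤ κ' := Nat.cast_nonneg κ'
  set M₅ : ℝ := C₅ / (6 * C₀) with hM₅
  have hM₅1 : 1 ≤ M₅ := by
    rw [hM₅, one_le_div (by positivity)]
    exact h5C
  have hlM5 : 0 ≤ Real.log M₅ := Real.log_nonneg hM₅1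
  have hnn : (0 : ℝ) ≤ Cq + D * Real.log M₅ + κ' * (1 + Cf) := by positivity
  refine ⟨1 + (Cq + D * Real.log M₅ + κ' * (1 + Cf)), by linarith, ?_⟩
  intro a L Ω Λ Ξ Z _ p lam x T pos A B zx zl cz G μ lm hF hreg hgr hbad hlm hlm1 hfulm hμ
  have hp := hF.leaf.isLaw
  have hp0 := hp.nonneg
  have hS := hF.small hC₀
  have hC0 : (0 : ℝ) < C₀ := by linarith
  have h2L : (0 : ℝ) < 2 ^ L := by positivity
  have h2L1 : (1 : ℝ) ≤ 2 ^ L := one_le_pow₀ (by norm_num)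
  have h2a : (0 : ℝ) < 2 ^ a := by positivity
  have hM : ((2 ^ L : ℕ) : ℝ) = 2 ^ L := by push_cast; rfl
  set h₀ : ℝ := 6 * C₀ / 2 ^ L with hh₀
  have hh₀0 : 0 < h₀ := by positivity
  have hlm0 : 0 < lm := hh₀0.trans_le hlm
  have hs0 : 0 < h₀ / lm := div_pos hh₀0 hlm0
  -- the polynomials in leaf units
  have hex1 : ∀ ζ, ∃ (Q : MvPolynomial (Option (Fin n)) ℝ) (g : ℝ), Q ≠ 0 ∧ Q.totalDegree ≤ D ∧
      0 < g ∧ (RegG (G ζ) (fun _ => 0) 1 k₀ (3 * C₀) → ¬ Bad (G ζ) (fun _ => 0) 1 D lm →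
        g = cs (fun _ => 0) 1 (gr (G ζ) (MvPolynomial.pderiv none Q)) ∧
        ∀ z : Option (Fin n) → ℝ, (fun i => z (some i)) ∈ cube (fun _ => 0) 1 →
          |z none - MvPolynomial.eval (fun i => z (some i)) (G ζ)| ≤ 3 * C₀ * h₀ →
          PsiA Q (thk h₀ lm) z ≤ Cq * lm * g) := by
    intro ζ
    by_cases hc : RegG (G ζ) (fun _ => 0) 1 k₀ (3 * C₀) ∧ ¬ Bad (G ζ) (fun _ => 0) 1 D lm
    · obtain ⟨Q, hQ, hQD, hg, hQs⟩ := hgdq (G ζ) (fun _ => 0) h₀ lm hh₀0 hlm hlm1 hc.1 hc.2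
      exact ⟨Q, _, hQ, hQD, hg, fun _ _ => ⟨rfl, hQs⟩⟩
    · refine ⟨1, 1, one_ne_zero, ?_, zero_lt_one, fun h1 h2 => absurd ⟨h1, h2⟩ hc⟩
      rw [MvPolynomial.totalDegree_one]
      exact Nat.zero_le _
  choose Q' g hQ'0 hQ'D hg0 hQ' using hex1
  have hgood : ∀ ω, 0 < p ω → g (zx (x ω)) = cs (fun _ => 0) 1 (gr (G (zx (x ω)))
      (MvPolynomial.pderiv none (Q' (zx (x ω))))) ∧
      ∀ z : Option (Fin n) → ℝ, (fun i => z (some i)) ∈ cube (fun _ => 0) 1 →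
          |z none - MvPolynomial.eval (fun i => z (some i)) (G (zx (x ω)))| ≤ 3 * C₀ * h₀ →
          PsiA (Q' (zx (x ω))) (thk h₀ lm) z ≤ Cq * lm * g (zx (x ω)) :=
    fun ω hω => hQ' _ (hreg ω hω) (hbad ω hω)
  -- the polynomials in the units of the long window
  have hex2 : ∀ ζ, ∃ Q : MvPolynomial (Option (Fin n)) ℝ,
      shf Q (1 / 2 ^ a) (crz cz a ζ) = Q' ζ ∧ Q.totalDegree ≤ (Q' ζ).totalDegree ∧
        (Q' ζ ≠ 0 → Q ≠ 0) := by
    intro ζ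
    obtain ⟨Q, h1, h2, h3⟩ := exists_rsQ (Q' ζ) (fun i => crz cz a ζ (some i))
      (crz cz a ζ none) (s := 1 / 2 ^ a) (by positivity)
    refine ⟨Q, ?_, h2, h3⟩
    rw [← h1]
    unfold rsQ
    rw [pt_eta]
  choose Q hQs hQdeg hQne using hex2
  have hrp01 : ∀ ω, 0 < p ω → (fun i => rp (2 ^ L) (posS pos L) (x ω) (some i)) ∈
      cube (fun _ => 0) 1 := by
    intro ω _ i
    have h1 := hS.pos_lt ω (some i)
    simp only [rp]
    rw [hM]
    refine ⟨by positivity, ?_⟩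
    rw [zero_add, div_le_one h2L]
    have : ((posS pos L (x ω) (some i) : ℕ) : ℝ) ≤ ((2 ^ L : ℕ) : ℝ) := by exact_mod_cast h1.le
    rwa [hM] at this
  have hclose : 3 * C₀ / 2 ^ L ≤ 3 * C₀ * h₀ := by
    rw [hh₀, ← mul_div_assoc]
    exact div_le_div_of_nonneg_right (by nlinarith) h2L.le
  have hj : ∀ ω, 0 < p ω → PsiC (h₀ / lm) (Q (zx (x ω))) (6 * C₀ / 2 ^ (a + L))
      (rp (2 ^ (a + L)) pos (x ω)) ≤ Cq * lm * g (zx (x ω)) := by
    intro ω hω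
    rw [← hF.PsiC_eq hs0.ne', hQs, Pool.KS3.PsiC_eq hs0.ne']
    have e1 : 6 * C₀ / 2 ^ L / (h₀ / lm) = lm := by
      rw [← hh₀]
      field_simp
    rw [e1]
    exact (hgood ω hω).2 _ (hrp01 ω hω) ((hgr ω hω).trans hclose)
  have hder : ∀ ζ, MvPolynomial.pderiv none (Q' ζ) =
      MvPolynomial.C (1 / 2 ^ a) * shf (MvPolynomial.pderiv none (Q ζ)) (1 / 2 ^ a)
        (crz cz a ζ) := by
    intro ζ
    rw [← hQs ζ, pderiv_shf]
  have hd' : ∀ ω, 0 < p ω → MvPolynomial.pderiv none (Q' (zx (x ω))) ≠ 0 := by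
    intro ω hω h0
    have h1 := (hgood ω hω).1
    rw [h0] at h1
    have h2 : cs (fun _ => 0) 1 (gr (G (zx (x ω))) (0 : MvPolynomial (Option (Fin n)) ℝ)) ≤ 0 :=
      SML.cs_le _ le_rfl fun y _ => by
        unfold gr
        simp
    have h3 := hg0 (zx (x ω))
    linarith
  have hd : ∀ ω, 0 < p ω → MvPolynomial.pderiv none (Q (zx (x ω))) ≠ 0 := by
    intro ω hω h0
    apply hd' ω hω
    rw [hder, h0]
    unfold shf
    simp
  refine ⟨Q, g, fun ζ => ⟨hQne ζ (hQ'0 ζ), (hQdeg ζ).trans (hQ'D ζ)⟩, hg0, ?_, hd, ?_⟩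
  · intro ω hω
    refine (hj ω hω).trans ?_
    have h1 : 0 ≤ lm * g (zx (x ω)) := (mul_pos hlm0 (hg0 _)).le
    have h2 : Cq ≤ 1 + (Cq + D * Real.log M₅ + κ' * (1 + Cf)) := by
      have : 0 ≤ D * Real.log M₅ + κ' * (1 + Cf) := by positivity
      linarith
    calc Cq * lm * g (zx (x ω)) = Cq * (lm * g (zx (x ω))) := by ring
      _ ≤ (1 + (Cq + D * Real.log M₅ + κ' * (1 + Cf))) * (lm * g (zx (x ω))) :=
        mul_le_mul_of_nonneg_right h2 h1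
      _ = _ := by ring
  -- filling
  have F1 := hfil Ω Z p (2 ^ L) 1 (fun ω => zx (x ω)) (fun ω i => posS pos L (x ω) (some i))
    (fun ω => rp (2 ^ L) (posS pos L) (x ω)) (fun _ _ => 0) G
    (fun ζ => MvPolynomial.pderiv none (Q' ζ)) g hp le_rfl Nat.one_le_two_pow
    (fun ω _ i => hS.pos_lt ω (some i))
    (fun ω hω => ⟨hd' ω hω, (totalDegree_pderiv_le' _ _).trans (hQ'D _)⟩)
    (by
      intro ω hω
      have h1 := hreg ω hω
      simp only [Nat.cast_one, div_one]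
      exact ⟨h1.deg, fun y hy i => (h1.slope y hy i).trans (by linarith)⟩)
    (by
      intro ω hω i
      simp only [rp, Nat.cast_one, one_mul, zero_add])
    (by
      intro ω hω
      refine (hgr ω hω).trans ?_
      rw [Nat.cast_one, one_mul, hM]
      exact div_le_div_of_nonneg_right (by linarith) h2L.le)
    (by
      intro ω hω
      refine ⟨hg0 _, ?_⟩
      obtain ⟨h1, -⟩ := hgood ω hω
      obtain ⟨y, hy, hy2⟩ := Pool.KS3.cs_attained (fun _ => 0) 1 zero_le_one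
        (gr (G (zx (x ω))) (MvPolynomial.pderiv none (Q' (zx (x ω)))))
      refine ⟨gpt (G (zx (x ω))) y, ?_, ?_, ?_, ?_⟩
      · rw [Nat.cast_one, div_one]
        exact hy
      · have h2 := (hreg ω hω).dist_le hy (hrp01 ω hω)
        have h3 := hgr ω hω
        have h4 : 3 * C₀ / 2 ^ L ≤ 3 * C₀ := by
          rw [div_le_iff₀ h2L]
          nlinarith
        have h5 := abs_sub_le (MvPolynomial.eval y (G (zx (x ω))))
          (MvPolynomial.eval (fun i => rp (2 ^ L) (posS pos L) (x ω) (some i)) (G (zx (x ω))))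
          (rp (2 ^ L) (posS pos L) (x ω) none)
        rw [abs_sub_comm] at h3
        change |MvPolynomial.eval y (G (zx (x ω))) - rp (2 ^ L) (posS pos L) (x ω) none| ≤ C₅
        refine h5.trans ?_
        rw [hC₅]
        have h6 : n * (3 * C₀) + 3 * C₀ ≤ (3 * n + 6) * C₀ := by
          have : 0 ≤ C₀ := hC0.le
          linarith
        linarith
      · have e1 : gpt (G (zx (x ω))) y none -
            MvPolynomial.eval (fun i => gpt (G (zx (x ω))) y (some i)) (G (zx (x ω))) = 0 :=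
          sub_self _
        rw [e1, abs_zero]
        positivity
      · refine le_trans (le_of_eq ?_) (abs_eval_le_Psi _ _ _)
        rw [h1, ← hy2]
        congr 1
        exact Pool.KS3.eval_gr _ _ _)
  -- the deficit
  set E : ℝ := μ + 1 with hE
  have hE1 : 1 ≤ E := by
    rw [hE]
    linarith
  have hdef : n * Real.log ((2 ^ L : ℕ) : ℝ) -
      CH p (fun ω i => posS pos L (x ω) (some i)) (fun ω => zx (x ω)) ≤ μ := by
    rw [hM, Real.log_pow]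
    exact hfulm
  -- the radius
  have hrad : ∀ ω, 0 < p ω → Real.log (Psi (MvPolynomial.pderiv none (Q' (zx (x ω))))
      (C₅ / (((1 : ℕ) : ℝ) * ((2 ^ L : ℕ) : ℝ))) (rp (2 ^ L) (posS pos L) (x ω))) ≤
      Real.log (1 / 2 ^ a * Psi (MvPolynomial.pderiv none (Q (zx (x ω))))
            (6 * C₀ / 2 ^ (a + L)) (rp (2 ^ (a + L)) pos (x ω))) + D * Real.log M₅ := by
    intro ω hω
    set P := MvPolynomial.pderiv none (Q' (zx (x ω))) with hP
    have e1 : C₅ / (((1 : ℕ) : ℝ) * ((2 ^ L : ℕ) : ℝ)) = h₀ * M₅ := by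
      rw [hM, Nat.cast_one, one_mul, hM₅, hh₀]
      field_simp
    have h1 := Psi_radius_le P h₀ M₅ hM₅1 (rp (2 ^ L) (posS pos L) (x ω))
    have h2 : Psi P h₀ (rp (2 ^ L) (posS pos L) (x ω)) =
        1 / 2 ^ a * Psi (MvPolynomial.pderiv none (Q (zx (x ω))))
            (6 * C₀ / 2 ^ (a + L)) (rp (2 ^ (a + L)) pos (x ω)) := by
      rw [hP, hder, Psi_C_mul, abs_of_pos (by positivity)]
      have e9 : Psi (shf (MvPolynomial.pderiv none (Q (zx (x ω)))) (1 / 2 ^ a)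
          (crz cz a (zx (x ω)))) h₀ (rp (2 ^ L) (posS pos L) (x ω)) =
          Psi (MvPolynomial.pderiv none (Q (zx (x ω)))) (6 * C₀ / 2 ^ (a + L))
            (rp (2 ^ (a + L)) pos (x ω)) := by
        rw [← PsiC_one, hh₀, hF.PsiC_eq one_ne_zero, PsiC_one]
      rw [e9]
    have h3 : P.totalDegree ≤ D := (totalDegree_pderiv_le' _ _).trans (hQ'D _)
    have h4 : 0 < Psi P h₀ (rp (2 ^ L) (posS pos L) (x ω)) := Psi_pos P (hd' ω hω) h₀ hh₀0 _
    have h5 : 0 < Psi P (h₀ * M₅) (rp (2 ^ L) (posS pos L) (x ω)) :=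
      Psi_pos P (hd' ω hω) _ (by positivity) _
    rw [e1, ← h2]
    have h6 : Psi P (h₀ * M₅) (rp (2 ^ L) (posS pos L) (x ω)) ≤
        M₅ ^ D * Psi P h₀ (rp (2 ^ L) (posS pos L) (x ω)) :=
      h1.trans (mul_le_mul_of_nonneg_right (pow_le_pow_right₀ hM₅1 h3) h4.le)
    have h7 := Real.log_le_log h5 h6
    rw [Real.log_mul (by positivity) h4.ne', Real.log_pow] at h7
    linarith
  have F2 := Ex_mono hp0 hrad
  rw [Ex_add, Ex_const hp.sum_one] at F2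
  have F3 := mul_le_mul_of_nonneg_left (add_le_add_left hdef Cf) hκ'
  have F4 : κ' * (μ + Cf) ≤ κ' * (1 + Cf) * E := by
    have h1 : μ + Cf ≤ (1 + Cf) * E := by
      have h4 : Cf * 1 ≤ Cf * E := mul_le_mul_of_nonneg_left hE1 hCf
      linarith
    calc κ' * (μ + Cf) ≤ κ' * ((1 + Cf) * E) := mul_le_mul_of_nonneg_left h1 hκ'
      _ = _ := by ring
  have F5 : D * Real.log M₅ ≤ D * Real.log M₅ * E := by
    have h1 : 0 ≤ D * Real.log M₅ := by positivity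
    have h2 : D * Real.log M₅ * 1 ≤ D * Real.log M₅ * E :=
      mul_le_mul_of_nonneg_left hE1 h1
    linarith
  have F6 : (1 + (Cq + D * Real.log M₅ + κ' * (1 + Cf))) * E =
      (1 + Cq) * E + D * Real.log M₅ * E + κ' * (1 + Cf) * E := by ring
  have F7 : 0 ≤ (1 + Cq) * E := by
    have : 0 ≤ E := by linarith
    positivity
  rw [F6]
  linarith

end Pool.KJA
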