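import Pool.Agent.H86.KJ.Lrd

/-!
# Taylor polynomials on small natural cubes (REG_u)

On a natural cube of side `s` of a leaf with a polynomial chart of any degree `k₀` the chart is a
polynomial of degree `r`, up to `C s ^ (r + 1)`; `k₀` enters only through the constant. `fil_u`:
filling of the small cubes, with the exponent `(2 r + 1) D + 1` which does not depend on `k₀`.
-/

set_option autoImplicit false

namespace Pool.KJA

open Finset Real
open Pool.Agent.H49.Ent Pool.Agent.H32.Dense Pool.STK Pool.KAF Pool.KAL Pool.KST Pool.KS3 Pool.M3F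

/-- The Taylor polynomial of degree `r` at the origin. -/
noncomputable def trn {d : ℕ} (r : ℕ) (P : MvPolynomial (Fin d) ℝ) : MvPolynomial (Fin d) ℝ :=
  ∑ α ∈ P.support.filter (fun α => α.degree ≤ r), MvPolynomial.monomial α (P.coeff α)

lemma trn_deg {d : ℕ} (r : ℕ) (P : MvPolynomial (Fin d) ℝ) : (trn r P).totalDegree ≤ r := by
  unfold trn
  refine MvPolynomial.totalDegree_finsetSum_le ?_
  intro α hα
  refine (MvPolynomial.totalDegree_monomial_le _ _).trans ?_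
  have h1 := (Finset.mem_filter.mp hα).2
  rw [Finsupp.degree_apply] at h1
  exact h1

/-- The error of the Taylor polynomial. -/
lemma trn_err {d : ℕ} (r : ℕ) (P : MvPolynomial (Fin d) ℝ) (c : ℝ) {s : ℝ} (hs0 : 0 ≤ s)
    (hs1 : s ≤ 1) {w : Fin d → ℝ} (hw : ∀ i, |w i| ≤ s) :
    |MvPolynomial.eval w P - MvPolynomial.eval w (trn r P)| ≤
      s ^ (r + 1) * coefSum (P - MvPolynomial.C c) := by
  classical
  have h1 : P - trn r P = ∑ α ∈ P.support.filter (fun α => ¬ α.degree ≤ r),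
      MvPolynomial.monomial α (P.coeff α) := by
    unfold trn
    have h2 := Finset.sum_filter_add_sum_filter_not P.support (fun α => α.degree ≤ r)
      (fun α => MvPolynomial.monomial α (P.coeff α))
    rw [MvPolynomial.support_sum_monomial_coeff] at h2
    exact sub_eq_of_eq_add' h2.symm
  have h3 : ∀ α ∈ P.support.filter (fun α => ¬ α.degree ≤ r),
      (P - MvPolynomial.C c).coeff α = P.coeff α := by
    intro α hα
    have h4 := (Finset.mem_filter.mp hα).2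
    have h5 : (0 : Fin d →₀ ℕ) ≠ α := by
      rintro rfl
      rw [map_zero] at h4
      exact h4 (Nat.zero_le _)
    rw [MvPolynomial.coeff_sub, MvPolynomial.coeff_C, if_neg h5, sub_zero]
  have h4 : ∑ α ∈ P.support.filter (fun α => ¬ α.degree ≤ r), |P.coeff α| ≤
      coefSum (P - MvPolynomial.C c) := by
    unfold coefSum
    calc ∑ α ∈ P.support.filter (fun α => ¬ α.degree ≤ r), |P.coeff α|
        = ∑ α ∈ P.support.filter (fun α => ¬ α.degree ≤ r), |(P - MvPolynomial.C c).coeff α| :=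
          Finset.sum_congr rfl fun α hα => by rw [h3 α hα]
      _ ≤ _ := by
          refine Finset.sum_le_sum_of_subset_of_nonneg ?_ fun _ _ _ => abs_nonneg _
          intro α hα
          rw [MvPolynomial.mem_support_iff, h3 α hα, ← MvPolynomial.mem_support_iff]
          exact (Finset.mem_filter.mp hα).1
  rw [← map_sub, h1, map_sum]
  refine (Finset.abs_sum_le_sum_abs _ _).trans ?_
  have h5 : ∀ α ∈ P.support.filter (fun α => ¬ α.degree ≤ r),
      |MvPolynomial.eval w (MvPolynomial.monomial α (P.coeff α))| ≤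
        s ^ (r + 1) * |P.coeff α| := by
    intro α hα
    have h6 : r + 1 ≤ α.degree := by
      have := (Finset.mem_filter.mp hα).2
      omega
    rw [MvPolynomial.eval_monomial, abs_mul, Finsupp.prod, Finset.abs_prod, mul_comm]
    refine mul_le_mul_of_nonneg_right ?_ (abs_nonneg _)
    calc ∏ i ∈ α.support, |w i ^ α i| ≤ ∏ i ∈ α.support, s ^ α i := by
          refine Finset.prod_le_prod (fun _ _ => abs_nonneg _) fun i _ => ?_
          rw [abs_pow]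
          exact pow_le_pow_left₀ (abs_nonneg _) (hw i) _
      _ = s ^ α.degree := by rw [Finset.prod_pow_eq_pow_sum, Finsupp.degree_apply]
      _ ≤ s ^ (r + 1) := pow_le_pow_of_le_one hs0 hs1 h6
  refine (Finset.sum_le_sum h5).trans ?_
  rw [← Finset.mul_sum]
  exact mul_le_mul_of_nonneg_left h4 (by positivity)

/-- The coefficients at a corner are bounded by the oscillation on the unit cube. -/
lemma coef_corner (d k₀ : ℕ) : ∃ C : ℝ, 1 ≤ C ∧ ∀ (R : MvPolynomial (Fin d) ℝ) (a : Fin d → ℝ)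
    (B : ℝ), R.totalDegree ≤ k₀ → a ∈ ucube d → (∀ u ∈ ucube d, |MvPolynomial.eval u R| ≤ B) →
    coefSum (shf R 1 a) ≤ C * B := by
  obtain ⟨K₁, hK₁, hK⟩ := exists_Psi_le_sup (Fin d) k₀
  refine ⟨4 ^ k₀ * K₁, ?_, ?_⟩
  · have : (1 : ℝ) ≤ 4 ^ k₀ := one_le_pow₀ (by norm_num)
    nlinarith
  intro R a B hR ha hB
  set cc : Fin d → ℝ := fun _ => 1 / 2 with hcc
  have h1 : Psi R (1 / 2) cc ≤ K₁ * B := by
    refine hK R (1 / 2) cc B hR (by norm_num) ?_
    intro y hy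
    refine hB y fun i => ?_
    have := hy i
    rw [hcc, abs_le] at this
    constructor <;> linarith [this.1, this.2]
  have h2 : Psi R 1 cc ≤ 2 ^ R.totalDegree * Psi R (1 / 2) cc := by
    have := Psi_radius_le R (1 / 2) 2 (by norm_num) cc
    rw [show (1 / 2 * 2 : ℝ) = 1 by norm_num] at this
    exact this
  have h3 : Psi R 1 a ≤ 2 ^ R.totalDegree * Psi R 1 cc :=
    Psi_le_of_near R 1 (by norm_num) cc a (by
      intro i
      have := ha i
      rw [hcc, abs_le]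
      constructor <;> linarith [this.1, this.2])
  have h4 : (2 : ℝ) ^ R.totalDegree ≤ 2 ^ k₀ := pow_le_pow_right₀ (by norm_num) hR
  have h5 : 0 ≤ Psi R (1 / 2) cc := Psi_nonneg _ _ _
  have h6 : 0 ≤ Psi R 1 cc := Psi_nonneg _ _ _
  have h7 : Psi R 1 a ≤ 2 ^ k₀ * (2 ^ k₀ * Psi R (1 / 2) cc) := by
    refine h3.trans (mul_le_mul h4 ?_ h6 (by positivity))
    exact h2.trans (mul_le_mul_of_nonneg_right h4 h5)
  have h8 : (2 : ℝ) ^ k₀ * 2 ^ k₀ = 4 ^ k₀ := by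
    rw [← mul_pow]
    norm_num
  change Psi R 1 a ≤ _
  calc Psi R 1 a ≤ 2 ^ k₀ * (2 ^ k₀ * Psi R (1 / 2) cc) := h7
    _ = 4 ^ k₀ * Psi R (1 / 2) cc := by rw [← mul_assoc, h8]
    _ ≤ 4 ^ k₀ * (K₁ * B) := mul_le_mul_of_nonneg_left h1 (by positivity)
    _ = _ := by ring

/-- **REG_u, one function.** A polynomial of degree `k₀` with oscillation at most `B` on the unit
cube is, on a box with the corner `a` and sides at most `s`, equal to its Taylor polynomial of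
degree `r` up to `C B s ^ (r + 1)`. -/
theorem reg_u (d k₀ : ℕ) : ∃ C : ℝ, 1 ≤ C ∧ ∀ (F : MvPolynomial (Fin d) ℝ) (a : Fin d → ℝ)
    (B s : ℝ) (r : ℕ), F.totalDegree ≤ k₀ → a ∈ ucube d →
    (∀ u ∈ ucube d, ∀ u' ∈ ucube d, |MvPolynomial.eval u F - MvPolynomial.eval u' F| ≤ B) →
    0 ≤ s → s ≤ 1 → ∀ w : Fin d → ℝ, (∀ i, |w i| ≤ s) →
      |MvPolynomial.eval (fun i => a i + w i) F - MvPolynomial.eval w (trn r (shf F 1 a))| ≤
        C * B * s ^ (r + 1) := by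
  obtain ⟨C, hC, H⟩ := coef_corner d k₀
  refine ⟨C, hC, ?_⟩
  intro F a B s r hF ha hB hs0 hs1 w hw
  set c : ℝ := MvPolynomial.eval a F with hc
  have h1 := trn_err r (shf F 1 a) c hs0 hs1 hw
  rw [eval_shf] at h1
  have e1 : (fun i => a i + 1 * w i) = fun i => a i + w i := by
    funext i
    ring
  rw [e1] at h1
  have h2 : shf F 1 a - MvPolynomial.C c = shf (F - MvPolynomial.C c) 1 a := by
    unfold shf
    rw [map_sub, MvPolynomial.aeval_C, MvPolynomial.algebraMap_eq]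
  have h3 : coefSum (shf (F - MvPolynomial.C c) 1 a) ≤ C * B := by
    refine H _ a B ?_ ha ?_
    · refine (MvPolynomial.totalDegree_sub _ _).trans (max_le hF ?_)
      rw [MvPolynomial.totalDegree_C]
      exact Nat.zero_le _
    · intro u hu
      rw [map_sub, MvPolynomial.eval_C]
      exact hB u hu a ha
  rw [h2] at h1
  have h4 : s ^ (r + 1) * coefSum (shf (F - MvPolynomial.C c) 1 a) ≤ s ^ (r + 1) * (C * B) :=
    mul_le_mul_of_nonneg_left h3 (by positivity)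
  calc _ ≤ s ^ (r + 1) * coefSum (shf (F - MvPolynomial.C c) 1 a) := h1
    _ ≤ s ^ (r + 1) * (C * B) := h4
    _ = _ := by ring

/-- The chart of the small cube `b.2` of the leaf `b.1`: Taylor polynomials of degree `r`. The small
cubes have `mm` grid steps. -/
noncomputable def tch {σ Z : Type} {d : ℕ} (r : ℕ) (Ng mm : Z → Fin d → ℕ)
    (Φ : Z → σ → MvPolynomial (Fin d) ℝ) (b : Z × (Fin d → ℕ)) : σ → MvPolynomial (Fin d) ℝ :=
  fun o => MvPolynomial.bind₁ (fun i => MvPolynomial.C ((mm b.1 i : ℝ) / Ng b.1 i) *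
    MvPolynomial.X i) (trn r (shf (Φ b.1 o) 1 (fun i => ((b.2 i * mm b.1 i : ℕ) : ℝ) / Ng b.1 i)))

/-- The leaf and the small cube of the point. -/
def scb {Ξ Z : Type} {d : ℕ} (mm : Z → Fin d → ℕ) (zx : Ξ → Z) (Yb : Ξ → Fin d → ℕ) (ξ : Ξ) :
    Z × (Fin d → ℕ) := (zx ξ, fun i => Yb ξ i / mm (zx ξ) i)

/-- The position of the point in its small cube. -/
def scy {Ξ Z : Type} {d : ℕ} (mm : Z → Fin d → ℕ) (zx : Ξ → Z) (Yb : Ξ → Fin d → ℕ) (ξ : Ξ) :
    Fin d → ℕ := fun i => Yb ξ i % mm (zx ξ) i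

/-- The point of the unit cube of the leaf with the coordinates `v` in the small cube. -/
noncomputable def scu {Z : Type} {d : ℕ} (Ng mm : Z → Fin d → ℕ) (b : Z × (Fin d → ℕ))
    (v : Fin d → ℝ) : Fin d → ℝ := fun i => ((b.2 i : ℝ) + v i) * mm b.1 i / Ng b.1 i

/-- The sizes of the small cubes. -/
structure SCub {Z : Type} {d : ℕ} (s : ℝ) (Ng mm : Z → Fin d → ℕ) (z : Z) : Prop where
  pos : ∀ i, 0 < mm z i
  dvd : ∀ i, mm z i ∣ Ng z i
  npos : ∀ i, 0 < Ng z i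
  le : ∀ i, (mm z i : ℝ) ≤ s * Ng z i

lemma SCub.scu_mem {Z : Type} {d : ℕ} {s : ℝ} {Ng mm : Z → Fin d → ℕ} {z : Z}
    (h : SCub s Ng mm z) {b : Fin d → ℕ} (hb : ∀ i, b i * mm z i < Ng z i) {v : Fin d → ℝ}
    (hv : v ∈ ucube d) : scu Ng mm (z, b) v ∈ ucube d := by
  intro i
  have h1 : (0 : ℝ) < Ng z i := by exact_mod_cast h.npos i
  have h2 : (0 : ℝ) < mm z i := by exact_mod_cast h.pos i
  have hv1 := (hv i).1
  have hv2 := (hv i).2
  have h3 : (b i + 1) * mm z i ≤ Ng z i := by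
    obtain ⟨k, hk⟩ := h.dvd i
    have h4 := hb i
    rw [hk, mul_comm (mm z i) k] at h4
    have h5 : b i < k := lt_of_mul_lt_mul_right h4 (Nat.zero_le _)
    rw [hk, mul_comm (mm z i) k]
    exact Nat.mul_le_mul_right _ h5
  have h4 : ((b i : ℝ) + 1) * mm z i ≤ Ng z i := by exact_mod_cast h3
  have hb0 : (0 : ℝ) ≤ b i := Nat.cast_nonneg _
  unfold scu
  simp only
  refine ⟨by positivity, ?_⟩
  rw [div_le_one h1]
  nlinarith

/-- **REG_u for charts.** -/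
lemma tch_near (σ : Type) (d k₀ : ℕ) : ∃ C : ℝ, 1 ≤ C ∧ ∀ (Z : Type) (C₀ s : ℝ) (M r : ℕ)
    (Ng mm : Z → Fin d → ℕ) (Φ : Z → σ → MvPolynomial (Fin d) ℝ) (z : Z) (b : Fin d → ℕ),
    0 ≤ C₀ → 1 ≤ M → ChartOK k₀ C₀ M (Ng z) (Φ z) → SCub s Ng mm z → 0 ≤ s → s ≤ 1 →
    C * s ^ (r + 1) * M ≤ 1 → (∀ i, b i * mm z i < Ng z i) →
    ∀ v ∈ ucube d, ∀ o, |cpt (tch r Ng mm Φ (z, b)) v o - cpt (Φ z) (scu Ng mm (z, b) v) o| ≤
      C₀ / M := by
  obtain ⟨C, hC, H⟩ := reg_u d k₀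
  refine ⟨C, hC, ?_⟩
  intro Z C₀ s M r Ng mm Φ z b hC₀ hM hch hsc hs0 hs1 hCs hb v hv o
  have hM0 : (0 : ℝ) < M := by exact_mod_cast hM
  set a : Fin d → ℝ := fun i => ((b i * mm z i : ℕ) : ℝ) / Ng z i with ha
  have ha1 : a ∈ ucube d := by
    have h1 := hsc.scu_mem hb (v := fun _ => 0) (fun i => by simp)
    have e1 : scu Ng mm (z, b) (fun _ => 0) = a := by
      funext i
      simp only [scu, ha]
      push_cast
      rw [add_zero]
    rwa [e1] at h1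
  have hw : ∀ i, |(mm z i : ℝ) / Ng z i * v i| ≤ s := by
    intro i
    have h1 : (0 : ℝ) < Ng z i := by exact_mod_cast hsc.npos i
    have h2 : (0 : ℝ) < mm z i := by exact_mod_cast hsc.pos i
    have h3 := hsc.le i
    have h4 : (mm z i : ℝ) / Ng z i ≤ s := by rwa [div_le_iff₀ h1]
    have h5 : 0 ≤ (mm z i : ℝ) / Ng z i := by positivity
    rw [abs_of_nonneg (mul_nonneg h5 (hv i).1)]
    have := (hv i).2
    nlinarith [(hv i).1]
  have h1 := H (Φ z o) a C₀ s r (hch.deg o) ha1 (fun u hu u' hu' => hch.diam u hu u' hu' o)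
    hs0 hs1 (fun i => (mm z i : ℝ) / Ng z i * v i) hw
  have e1 : (fun i => a i + (mm z i : ℝ) / Ng z i * v i) = scu Ng mm (z, b) v := by
    funext i
    simp only [scu, ha]
    push_cast
    ring
  rw [e1] at h1
  have e2 : cpt (tch r Ng mm Φ (z, b)) v o =
      MvPolynomial.eval (fun i => (mm z i : ℝ) / Ng z i * v i)
        (trn r (shf (Φ z o) 1 a)) := by
    unfold cpt tch
    rw [eval_bind]
    congr 1
    congr 1
    funext i
    simp only [cpt, map_mul, MvPolynomial.eval_C, MvPolynomial.eval_X]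
  rw [e2, abs_sub_comm]
  refine h1.trans ?_
  rw [le_div_iff₀ hM0]
  nlinarith

/-- The chart of a small cube is a chart of degree `r`. -/
lemma tch_ok (σ : Type) (d k₀ : ℕ) : ∃ C : ℝ, 1 ≤ C ∧ ∀ (Z : Type) (C₀ s : ℝ) (M r : ℕ)
    (Ng mm : Z → Fin d → ℕ) (Φ : Z → σ → MvPolynomial (Fin d) ℝ) (z : Z) (b : Fin d → ℕ),
    0 ≤ C₀ → 1 ≤ M → ChartOK k₀ C₀ M (Ng z) (Φ z) → SCub s Ng mm z → 0 ≤ s → s ≤ 1 →
    C * s ^ (r + 1) * M ≤ 1 → (∀ i, b i * mm z i < Ng z i) →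
    ChartOK r (3 * C₀) M (mm z) (tch r Ng mm Φ (z, b)) := by
  obtain ⟨C, hC, H⟩ := tch_near σ d k₀
  refine ⟨C, hC, ?_⟩
  intro Z C₀ s M r Ng mm Φ z b hC₀ hM hch hsc hs0 hs1 hCs hb
  have hM1 : (1 : ℝ) ≤ M := by exact_mod_cast hM
  have hM0 : (0 : ℝ) < M := by linarith
  have hn := H Z C₀ s M r Ng mm Φ z b hC₀ hM hch hsc hs0 hs1 hCs hb
  have hCM : C₀ / M ≤ C₀ := div_le_self hC₀ hM1
  refine ⟨fun i => hsc.pos i, ?_, ?_, ?_⟩
  · intro o
    unfold tch
    refine (Pool.KS3.SML.totalDegree_bind_le _ 1 ?_ _).trans ?_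
    · intro i
      refine (MvPolynomial.totalDegree_mul _ _).trans ?_
      rw [MvPolynomial.totalDegree_C, zero_add, MvPolynomial.totalDegree_X]
    · rw [one_mul]
      exact trn_deg _ _
  · intro u hu u' hu' huu o
    have h1 := hn u hu o
    have h2 := hn u' hu' o
    have h3 := hch.step _ (hsc.scu_mem hb hu) _ (hsc.scu_mem hb hu') (by
      intro i
      have h4 := huu i
      have h5 : (0 : ℝ) < Ng z i := by exact_mod_cast hsc.npos i
      have h6 : (0 : ℝ) < mm z i := by exact_mod_cast hsc.pos i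
      have e1 : scu Ng mm (z, b) u i - scu Ng mm (z, b) u' i =
          (u i - u' i) * (mm z i / Ng z i) := by
        simp only [scu]
        ring
      rw [e1, abs_mul, abs_of_pos (div_pos h6 h5)]
      calc |u i - u' i| * ((mm z i : ℝ) / Ng z i) ≤ 1 / mm z i * ((mm z i : ℝ) / Ng z i) :=
            mul_le_mul_of_nonneg_right h4 (by positivity)
        _ = 1 / Ng z i := by field_simp) o
    have h7 : |cpt (tch r Ng mm Φ (z, b)) u o - cpt (tch r Ng mm Φ (z, b)) u' o| ≤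
        C₀ / M + C₀ / M + C₀ / M := by
      have e1 : cpt (tch r Ng mm Φ (z, b)) u o - cpt (tch r Ng mm Φ (z, b)) u' o =
        (cpt (tch r Ng mm Φ (z, b)) u o - cpt (Φ z) (scu Ng mm (z, b) u) o) +
        (cpt (Φ z) (scu Ng mm (z, b) u) o - cpt (Φ z) (scu Ng mm (z, b) u') o) +
        -(cpt (tch r Ng mm Φ (z, b)) u' o - cpt (Φ z) (scu Ng mm (z, b) u') o) := by ring
      rw [e1]
      refine (abs_add_three _ _ _).trans ?_
      rw [abs_neg]
      linarith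
    calc _ ≤ C₀ / M + C₀ / M + C₀ / M := h7
      _ = 3 * C₀ / M := by ring
  · intro u hu u' hu' o
    have h1 := hn u hu o
    have h2 := hn u' hu' o
    have h3 := hch.diam _ (hsc.scu_mem hb hu) _ (hsc.scu_mem hb hu') o
    have e1 : cpt (tch r Ng mm Φ (z, b)) u o - cpt (tch r Ng mm Φ (z, b)) u' o =
        (cpt (tch r Ng mm Φ (z, b)) u o - cpt (Φ z) (scu Ng mm (z, b) u) o) +
        (cpt (Φ z) (scu Ng mm (z, b) u) o - cpt (Φ z) (scu Ng mm (z, b) u') o) +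
        -(cpt (tch r Ng mm Φ (z, b)) u' o - cpt (Φ z) (scu Ng mm (z, b) u') o) := by ring
    rw [e1]
    refine (abs_add_three _ _ _).trans ?_
    rw [abs_neg]
    linarith

/-- **Filling of the small natural cubes.** The exponent is `(2 r + 1) D + 1`; the degree `k₀` of
the charts of the leaves enters only in the condition on the Taylor error. -/
theorem fil_u (σ : Type) [Fintype σ] (d D r : ℕ) : ∃ C : ℝ, 0 ≤ C ∧ ∀ k₀ : ℕ,
    ∃ Ct : ℝ, 1 ≤ Ct ∧
    ∀ (C₀ s : ℝ) (Ω Λ Ξ Z Γ : Type) [Fintype Ω] (p : Ω → ℝ) (lam : Ω → Λ)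
      (x : Ω → Ξ) (T : Ξ → ℕ) (z : Ξ → σ → ℝ) (A B : Λ → σ → ℝ) (zx : Ξ → Z) (zl : Λ → Z)
      (Yb : Ξ → Fin d → ℕ) (Ng mm : Z → Fin d → ℕ) (Φ : Z → σ → MvPolynomial (Fin d) ℝ) (M : ℕ)
      (P : Γ → MvPolynomial σ ℝ),
      1 ≤ C₀ → 1 ≤ M → CLeaf k₀ C₀ M p lam x T z A B zx zl Yb Ng Φ →
      (∀ ω, 0 < p ω → SCub s Ng mm (zx (x ω))) → 0 ≤ s → s ≤ 1 → Ct * s ^ (r + 1) * M ≤ 1 →
      FillP p x (scb mm zx Yb) (scy mm zx Yb)
        (fun γ ξ => Real.log (Psi (P γ) (3 * C₀ / M) (z ξ)))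
        (admC D (3 * C₀ / M) (tch r Ng mm Φ) P) (((2 * r + 1) * D + 1 : ℕ) : ℝ)
        (fun b => ∑ i, Real.log (mm b.1 i)) C := by
  obtain ⟨C, hC, hfil⟩ := fil_chart (rik_thm rmg_thm gvi_thm) σ d D r
  refine ⟨C, hC, ?_⟩
  intro k₀
  obtain ⟨Ct, hCt, hok⟩ := tch_ok σ d k₀
  obtain ⟨Ct', hCt', hnear⟩ := tch_near σ d k₀
  refine ⟨max Ct Ct', le_max_of_le_left hCt, ?_⟩
  intro C₀ s Ω Λ Ξ Z Γ _ p lam x T z A B zx zl Yb Ng mm Φ M P hC₀ hM hL hsc hs0 hs1 hCs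
  have hC0 : 0 ≤ C₀ := by linarith
  have hM0 : (0 : ℝ) < M := by exact_mod_cast hM
  have hsr : 0 ≤ s ^ (r + 1) * M := by positivity
  have hC1 : Ct * s ^ (r + 1) * M ≤ 1 := by
    refine le_trans ?_ hCs
    rw [mul_assoc, mul_assoc]
    exact mul_le_mul_of_nonneg_right (le_max_left _ _) hsr
  have hC2 : Ct' * s ^ (r + 1) * M ≤ 1 := by
    refine le_trans ?_ hCs
    rw [mul_assoc, mul_assoc]
    exact mul_le_mul_of_nonneg_right (le_max_right _ _) hsr
  have hb : ∀ ω, 0 < p ω → ∀ i, Yb (x ω) i / mm (zx (x ω)) i * mm (zx (x ω)) i <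
      Ng (zx (x ω)) i := fun ω hω i =>
    lt_of_le_of_lt (Nat.div_mul_le_self _ _) (hL.lt ω hω i)
  refine hfil (3 * C₀) Ω Ξ Γ (Z × (Fin d → ℕ)) p x M (scb mm zx Yb) (fun b => mm b.1)
    (tch r Ng mm Φ) (scy mm zx Yb) z P (by linarith) hM ?_ ?_ ?_
  · intro ω hω
    exact hok Z C₀ s M r Ng mm Φ (zx (x ω)) _ hC0 hM (hL.chart ω hω) (hsc ω hω) hs0 hs1 hC1
      (hb ω hω)
  · intro ω hω i
    exact Nat.mod_lt _ ((hsc ω hω).pos i)
  · intro ω hω o
    have h1 := hnear Z C₀ s M r Ng mm Φ (zx (x ω)) (fun i => Yb (x ω) i / mm (zx (x ω)) i) hC0 hM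
      (hL.chart ω hω) (hsc ω hω) hs0 hs1 hC2 (hb ω hω)
      (gpos (mm (zx (x ω))) (scy mm zx Yb (x ω)))
      (gpos_mem fun i => Nat.mod_lt _ ((hsc ω hω).pos i)) o
    have h2 := hL.near ω hω o
    have e1 : scu Ng mm (zx (x ω), fun i => Yb (x ω) i / mm (zx (x ω)) i)
        (gpos (mm (zx (x ω))) (scy mm zx Yb (x ω))) = gpos (Ng (zx (x ω))) (Yb (x ω)) := by
      funext i
      simp only [scu, gpos, scy]
      have h3 : (0 : ℝ) < mm (zx (x ω)) i := by exact_mod_cast (hsc ω hω).pos i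
      have h4 : ((Yb (x ω) i / mm (zx (x ω)) i : ℕ) : ℝ) * mm (zx (x ω)) i +
          ((Yb (x ω) i % mm (zx (x ω)) i : ℕ) : ℝ) = Yb (x ω) i := by
        have := Nat.div_add_mod' (Yb (x ω) i) (mm (zx (x ω)) i)
        exact_mod_cast this
      rw [← h4]
      field_simp
    rw [e1] at h1
    have h5 := abs_sub_le (z (x ω) o) (cpt (Φ (zx (x ω))) (gpos (Ng (zx (x ω))) (Yb (x ω))) o)
      (cpt (tch r Ng mm Φ (scb mm zx Yb (x ω))) (gpos (mm (zx (x ω))) (scy mm zx Yb (x ω))) o)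
    rw [abs_sub_comm (cpt (Φ (zx (x ω))) (gpos (Ng (zx (x ω))) (Yb (x ω))) o)] at h5
    have h6 : |cpt (tch r Ng mm Φ (scb mm zx Yb (x ω))) (gpos (mm (zx (x ω)))
        (scy mm zx Yb (x ω))) o - cpt (Φ (zx (x ω))) (gpos (Ng (zx (x ω))) (Yb (x ω))) o| ≤
        C₀ / M := h1
    have h7 : C₀ / M + C₀ / M ≤ 3 * C₀ / M := by
      rw [← add_div]
      exact div_le_div_of_nonneg_right (by linarith) hM0.le
    refine h5.trans (le_trans ?_ h7)
    linarith

/-- Points of the chart of the leaf in the small cube are admissible. -/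
lemma adm_u (σ : Type) [Fintype σ] (d k₀ : ℕ) : ∃ Ct : ℝ, 1 ≤ Ct ∧
    ∀ (Z Γ : Type) (C₀ s : ℝ) (M r D : ℕ)
    (Ng mm : Z → Fin d → ℕ) (Φ : Z → σ → MvPolynomial (Fin d) ℝ) (P : Γ → MvPolynomial σ ℝ)
    (z : Z) (b : Fin d → ℕ) (γ : Γ) (v : Fin d → ℝ),
    0 ≤ C₀ → 1 ≤ M → ChartOK k₀ C₀ M (Ng z) (Φ z) → SCub s Ng mm z → 0 ≤ s → s ≤ 1 →
    Ct * s ^ (r + 1) * M ≤ 1 → (∀ i, b i * mm z i < Ng z i) → v ∈ ucube d → P γ ≠ 0 →
    (P γ).totalDegree ≤ D →
    admC D (3 * C₀ / M) (tch r Ng mm Φ) P γ (z, b)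
      (Real.log (Psi (P γ) (3 * C₀ / M) (cpt (Φ z) (scu Ng mm (z, b) v)))) := by
  obtain ⟨Ct, hCt, hnear⟩ := tch_near σ d k₀
  refine ⟨Ct, hCt, ?_⟩
  intro Z Γ C₀ s M r D Ng mm Φ P z b γ v hC₀ hM hch hsc hs0 hs1 hCs hb hv hP hPD
  have hM0 : (0 : ℝ) < M := by exact_mod_cast hM
  refine ⟨hP, hPD, v, hv, _, ?_, le_rfl⟩
  intro o
  have h1 := hnear Z C₀ s M r Ng mm Φ z b hC₀ hM hch hsc hs0 hs1 hCs hb v hv o
  rw [abs_sub_comm]
  refine h1.trans (div_le_div_of_nonneg_right (by linarith) hM0.le)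

end Pool.KJA
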